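import Pool.Agent.Helper30.ZN.Chn
import Pool.Agent.Helper26.MT.Zt

/-! ZNUM, second part: the numbers `h(P_a, z_b | l)` over a label with a frame, and over a zoom. -/

set_option autoImplicit false

namespace Pool.Agent.Helper30.ZN

open Finset Filter Topology Pool.Agent.Helper69.RK Pool.Agent.Helper31.EC Pool.Agent.Helper31.EC.Sp
open Pool.Agent.Helper40.EL Pool.Agent.Helper89.LX Pool.Agent.Helper3.LF Pool.Agent.Helper84.MT
open Pool.Agent.Helper36.AM (Frm cel2)
open Pool.Agent.Helper63.FRT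

noncomputable section

variable {S : Sp} {M : ℕ}

/-- the level of the coordinate `j` -/
def lev (z : Fin M) (a b : ℝ) (j : Fin M) : ℝ := if j = z then b else a

theorem lev_self (z : Fin M) (a b : ℝ) : lev z a b z = b := if_pos rfl

theorem lev_ne {z j : Fin M} (a b : ℝ) (h : j ≠ z) : lev z a b j = a := if_neg h

theorem le_lev {z : Fin M} {a b : ℝ} (hba : b ≤ a) (j : Fin M) : b ≤ lev z a b j := by
  unfold lev
  split_ifs
  · exact le_rfl
  · exact hba

theorem lev_le {z : Fin M} {a b : ℝ} (hba : b ≤ a) (j : Fin M) : lev z a b j ≤ a := by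
  unfold lev
  split_ifs
  · exact hba
  · exact le_rfl

/-- RATES OF THE CELLS `cel2` on a space, given a partition -/
theorem cel2_rate (x : S.VV M) (z : Fin M) {a b : ℝ} (hba : b ≤ a) (γ : Fin M → ℝ) (hγ : ∀ j, γ j ≤ lev z a b j)
    (B : ∀ k, Setoid (S.F k).Ω) (K : ℕ → ℝ) (hK : S.Sub K)
    (hB : ∀ᶠ k in UF, ∀ ω ω', (S.F k).μ ω ≠ 0 → (S.F k).μ ω' ≠ 0 → (S.F k).Z ω ω' → B k ω ω' → ∀ j : Fin M,
      (∀ i, i < j → |x.v k ω i - x.v k ω' i| ≤ S.dl (lev z a b i) k) →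
        |x.v k ω j - x.v k ω' j| ≤ K k * S.dl (γ j) k) (ε : ℝ) (hε : 0 < ε) :
    ∀ᶠ k in UF, h (cel2 x z a b k) (fc (B k)) / (S.F k).n ≤ ∑ j, (lev z a b j - γ j) + ε := by
  have h1 := h_chain_le x.v (lev z a b) γ hγ B K hK hB (ε / 2) (by linarith)
  obtain ⟨X, hX⟩ : ∃ X : ∀ k, Setoid (S.F k).Ω,
    X = fun k => Setoid.ker (fun ω (j : Fin M) => ⌊x.v k ω j / S.dl (lev z a b j) k⌋) := ⟨_, rfl⟩
  have hX1 : ∀ k ω ω', X k ω ω' → ∀ j, ⌊x.v k ω j / S.dl (lev z a b j) k⌋ = ⌊x.v k ω' j / S.dl (lev z a b j) k⌋ := by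
    intro k ω ω' r j
    rw [hX] at r
    exact congrFun r j
  have h2 := h_celm_le x (fun _ => b) (fun _ => b) (fun _ => le_rfl) (fun k => X k ⊓ B k) (fun _ => 1)
    (S.Sub_const zero_le_one) (Eventually.of_forall fun k ω ω' _ _ _ r i => by
      rw [one_mul]
      exact (abs_sub_le_of_floor_eq (S.dl_pos _ k) (hX1 k ω ω' r.1 i)).trans (S.dl_anti (le_lev hba i) k))
    (ε / 2) (by linarith)
  filter_upwards [h1, h2] with k a1 a2
  have hn := (S.F k).pos
  have e1 : cel2 x z a b k = fc (Setoid.ker (x.cellv b k) ⊓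
      Setoid.ker (fun ω (j : {j : Fin M // j ≠ z}) => x.cellv a k ω j.1)) := rfl
  rw [e1, h_fc]
  have h3 : (S.F k).e (Setoid.ker (x.cellv b k) ⊓
      Setoid.ker (fun ω (j : {j : Fin M // j ≠ z}) => x.cellv a k ω j.1)) (B k ⊓ (S.F k).Z) ≤
      (S.F k).e (X k ⊓ Setoid.ker (x.cellv b k)) (B k ⊓ (S.F k).Z) := by
    apply (S.F k).e_mono
    rintro ω ω' _ _ ⟨r1, r2⟩ _
    refine ⟨r2, ?_⟩
    show (fun (j : {j : Fin M // j ≠ z}) => x.cellv a k ω j.1) = fun j => x.cellv a k ω' j.1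
    funext j
    have h4 := hX1 k ω ω' r1 j.1
    rw [lev_ne a b j.2] at h4
    exact h4
  have h4 := (S.F k).e_chain (X k) (Setoid.ker (x.cellv b k)) (B k ⊓ (S.F k).Z)
  have e2 : Setoid.ker (fun ω (j : Fin M) => ⌊x.v k ω j / S.dl (lev z a b j) k⌋) = X k := by rw [hX]
  rw [e2, h_fc] at a1
  rw [h_fc, celm_const, inf_assoc] at a2
  have h5 := div_le_div_of_nonneg_right h3 hn.le
  rw [h4, add_div] at h5
  have e3 : ∑ i : Fin M, (b - b) = 0 := by
    rw [sub_self, Finset.sum_const_zero]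
  rw [e3] at a2
  linarith

/-- OVER A LABEL WITH A FRAME -/
theorem H_frm_le {Q : S.VV M} {y : Lab S} {La : Fin M → ℝ} (f : Frm Q y La) (h0 : ∀ i, 0 < La i) {z : Fin M}
    (hz : ∀ j, j ≤ z) {a b : ℝ} (hba : b ≤ a) (ha : a ≤ 1) (hLa : ∀ j, La j ≤ lev z a b j) :
    H (up1 y (cel2L Q z a b)) ≤ ∑ j, (lev z a b j - La j) := by
  rw [H_cel2L]
  refine le_of_forall_pos_le_add fun ε hε => ?_
  apply ul_le_const (cel2_UB Q z a b y)
  obtain ⟨K, hK, hk⟩ := frm_var f h0
  obtain ⟨Kx, hKx', hx⟩ := f.X.bd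
  have hKx : S.Sub Kx := (sp_Sub y).mp hKx'
  have h1 := cel2_rate (S := y.sp) (y.pj.vv Q) z hba La hLa y.V (fun k => K k + (Kx k + Kx k))
    ((sp_Sub y).mpr (hK.add (hKx.add hKx))) (by
      filter_upwards [hk, hx, hK.1] with k c1 c2 c3 ω ω' hω hω' hZ hV j hi
      have hd : ∀ r, y.sp.dl r k = S.dl r k := fun r => sp_dl y r k
      have h2 := c1 ω ω' hω hω' hZ hV j (S.dl a k) (S.dl_anti ha k) (fun i hij => by
        have h3 := hi i hij
        rw [hd, lev_ne a b (ne_of_lt (lt_of_lt_of_le hij (hz j)))] at h3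
        exact h3)
      rw [hd]
      have h4 : S.dl a k ≤ S.dl (La j) k := S.dl_anti ((hLa j).trans (lev_le hba j)) k
      have h5 : |f.X.v k ω j - f.X.v k ω' j| ≤ Kx k + Kx k :=
        (abs_sub _ _).trans (add_le_add (c2 ω hω j) (c2 ω' hω' j))
      have h6 := mul_le_mul_of_nonneg_left h4 c3
      have h7 := mul_le_mul_of_nonneg_left h5 (S.dl_pos (La j) k).le
      refine h2.trans ?_
      rw [add_mul]
      linarith) ε hε
  filter_upwards [h1] with k a1
  have hn : (y.sp.F k).n = (S.F k).n := (y k).hn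
  have e1 : cel2 (y.pj.vv Q) z a b k = (y k).p.map (cel2 Q z a b k) := by
    have e2 : ∀ r, (y.pj.vv Q).cellv r k = fun ω => Q.cellv r k ((y k).p.π ω) := by
      intro r
      funext ω i
      show ⌊Q.v k ((y k).p.π ω) i / y.sp.dl r k⌋ = ⌊Q.v k ((y k).p.π ω) i / S.dl r k⌋
      rw [sp_dl]
    unfold cel2
    rw [e2, e2]
    rfl
  rw [e1, hn] at a1
  exact a1

/-- OVER A ZOOM: the cells of the point of the system given the cells of the frame coordinates -/
theorem h_zoom_le {Q : S.VV M} {l : Lab S} {La : Fin M → ℝ} (f : Frm Q l La) (h0 : ∀ i, 0 < La i) {e : ℝ} (he : 0 < e)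
    (Qt : (l.ovr e he).VV M) (pt : ∃ K : ℕ → ℝ, S.Sub K ∧ ∀ᶠ k in UF, ∀ ω : (l.sp.F k).Ω, (l.sp.F k).μ ω ≠ 0 → ∀ j,
      |Qt.v k ω j - f.X.v k ω j| ≤ K k * S.dl e k) {z : Fin M} (hz : ∀ j, j ≤ z) (hLe : ∀ j, La j + e ≤ 1) {a b : ℝ}
    (hba : b ≤ a) (ha : a ≤ 1) :
    h (l.upL e he (cel2L Q z 1 (La z + e * b))) (cel2L Qt z a b) ≤
      ∑ j, (lev z (1 / e) ((La z + e * b) / e) j - (La j + e * lev z a b j) / e) := by
  rw [← cl_cel2I, ← cl_cel2I, l.upL_cl, ← hr_rpI, ← cel2_rpI]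
  refine le_of_forall_pos_le_add fun ε hε => ?_
  have hub : UB (fun k => h (rpI (l.upI e he (cel2I Q z 1 (La z + e * b))) k) (cel2 Qt z a b k) /
    ((l.ovr e he).F k).n) := (rpI_Bd _).ub _
  apply ul_le_const hub
  have hlev : ∀ j, lev z a b j ≤ 1 := fun j => (lev_le hba j).trans ha
  have hL1 : ∀ j, La j + e * lev z a b j ≤ 1 := by
    intro j
    have h1 := hLe j
    have h2 := mul_le_mul_of_nonneg_left (hlev j) he.le
    linarith
  obtain ⟨K, hK, hk⟩ := frm_var f h0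
  obtain ⟨Kt, hKt, ht⟩ := pt
  obtain ⟨x, hx⟩ : ∃ x : (l.ovr e he).VV M, x = (l.pj.vv Q).chg l.V e he := ⟨_, rfl⟩
  have hxv : ∀ k ω j, x.v k ω j = (l.pj.vv Q).v k ω j := by
    intro k ω j
    rw [hx]
    rfl
  have hd : ∀ r k, (l.ovr e he).dl r k = S.dl (e * r) k := by
    intro r k
    have h3 : (l.ovr e he).dl r k = l.sp.dl (e * r) k := chg_dl l.V e he r k
    rw [h3, sp_dl]
  have h1 := cel2_rate (S := l.ovr e he) x z (a := 1 / e) (b := (La z + e * b) / e)
    (div_le_div_of_nonneg_right (by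
      have := hL1 z
      rw [lev_self] at this
      exact this) he.le)
    (fun j => (La j + e * lev z a b j) / e) (fun j => by
      by_cases hj : j = z
      · subst hj
        rw [lev_self, lev_self]
      · rw [lev_ne (1 / e) ((La z + e * b) / e) hj]
        exact div_le_div_of_nonneg_right (hL1 j) he.le)
    (fun k => Setoid.ker (Qt.cellv b k) ⊓ Setoid.ker (fun ω (j : {j : Fin M // j ≠ z}) => Qt.cellv a k ω j.1))
    (fun k => K k + (1 + (Kt k + Kt k))) (chg_sub _ e he ((sp_Sub l).mpr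
      (hK.add ((S.Sub_const zero_le_one).add (hKt.add hKt))))) (by
      filter_upwards [hk, ht, hK.1, hKt.1] with k c1 c2 c3 c4 ω ω' hω hω' hZ hV j hi
      have h2 := c1 ω ω' hω hω' hZ.2 hZ.1 j (S.dl 1 k) le_rfl (fun i hij => by
        have h3 := hi i hij
        rw [hd, lev_ne _ _ (ne_of_lt (lt_of_lt_of_le hij (hz j))), mul_one_div_cancel he.ne', hxv, hxv] at h3
        exact h3)
      rw [hxv, hxv, hd, mul_div_cancel₀ _ he.ne']
      have h5 : |Qt.v k ω j - Qt.v k ω' j| ≤ S.dl (e * lev z a b j) k := by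
        rw [← hd]
        by_cases hj : j = z
        · subst hj
          rw [lev_self]
          exact abs_sub_le_of_floor_eq ((l.ovr e he).dl_pos _ k) (congrFun hV.1 j)
        · rw [lev_ne _ _ hj]
          exact abs_sub_le_of_floor_eq ((l.ovr e he).dl_pos _ k) (congrFun hV.2 ⟨j, hj⟩)
      have h6 : S.dl e k ≤ S.dl (e * lev z a b j) k := S.dl_anti (by
        have := mul_le_mul_of_nonneg_left (hlev j) he.le
        linarith) k
      have h7 : |f.X.v k ω j - f.X.v k ω' j| ≤ (1 + (Kt k + Kt k)) * S.dl (e * lev z a b j) k := by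
        have a1 := c2 ω hω j
        have a2 := c2 ω' hω' j
        have a3 := mul_le_mul_of_nonneg_left h6 c4
        rw [abs_le] at a1 a2 h5 ⊢
        constructor <;> nlinarith [a1.1, a1.2, a2.1, a2.2, h5.1, h5.2]
      have h8 := mul_le_mul_of_nonneg_left h7 (S.dl_pos (La j) k).le
      have h9 : S.dl (La j + e * lev z a b j) k = S.dl (La j) k * S.dl (e * lev z a b j) k := S.dl_add _ _ _
      have h10 : S.dl 1 k ≤ S.dl (La j + e * lev z a b j) k := S.dl_anti (hL1 j) k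
      have h11 := mul_le_mul_of_nonneg_left h10 c3
      refine h2.trans ?_
      rw [add_mul, h9] at *
      nlinarith) ε hε
  filter_upwards [h1] with k a1
  have e1 : (rpI (l.upI e he (cel2I Q z 1 (La z + e * b))) k : FL ((l.ovr e he).F k)) =
      cel2 x z (1 / e) ((La z + e * b) / e) k := by
    have e0 : ∀ r, x.cellv (r / e) k = fun ω => Q.cellv r k ((l k).p.π ω) := by
      intro r
      funext ω i
      show ⌊x.v k ω i / (l.ovr e he).dl (r / e) k⌋ = ⌊Q.v k ((l k).p.π ω) i / S.dl r k⌋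
      rw [hd, mul_div_cancel₀ _ he.ne', hxv]
      rfl
    have e2 : (rpI (l.upI e he (cel2I Q z 1 (La z + e * b))) k : FL ((l.ovr e he).F k)) =
        l.up e he (rpI (cel2I Q z 1 (La z + e * b))) k := rfl
    rw [e2, ← cel2_rpI]
    unfold cel2
    rw [e0, e0]
    rfl
  rw [e1]
  exact a1

end

end Pool.Agent.Helper30.ZN
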