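import Pool.Agent.Helper63.FRT.Frf

/-! ZNUM, first part: entropies of cells of a vector whose coordinates are known, given the previous ones, up to certain
levels; the coordinates of the point given a label with a frame. -/

set_option autoImplicit false

namespace Pool.Agent.Helper30.ZN

open Finset Filter Topology Pool.Agent.Helper69.RK Pool.Agent.Helper31.EC Pool.Agent.Helper31.EC.Sp
open Pool.Agent.Helper40.EL Pool.Agent.Helper89.LX Pool.Agent.Helper3.LF Pool.Agent.Helper84.MT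
open Pool.Agent.Helper36.AM (Frm)
open Pool.Agent.Helper63.FRT

noncomputable section

/-- CHAIN: the coordinate `j` varies by at most `D j` on the atoms of `B` and of the previous coordinates -/
theorem e_chain_le (F : FSp) {m : ℕ} : ∀ (X : F.Ω → Fin m → ℤ) (B : Setoid F.Ω) (D : Fin m → ℝ), (∀ j, 0 ≤ D j) →
    (∀ (j : Fin m) (ω ω' : F.Ω), F.μ ω ≠ 0 → F.μ ω' ≠ 0 → B ω ω' → (∀ i, i < j → X ω i = X ω' i) →
      |(X ω j : ℝ) - X ω' j| ≤ D j) → F.e (Setoid.ker X) B ≤ ∑ j, Real.logb 2 (D j + 1) := by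
  induction m with
  | zero =>
    intro X B D _ _
    have h0 : F.e (Setoid.ker X) B = 0 := F.e_zero (fun ω ω' _ _ _ => by
      show X ω = X ω'
      exact funext fun i => i.elim0)
    rw [h0, Finset.univ_eq_empty, Finset.sum_empty]
  | succ m ih =>
    intro X B D hD h
    have h1 := ih (fun ω i => X ω i.castSucc) B (fun i => D i.castSucc) (fun j => hD _)
      (fun j ω ω' a b c d => h j.castSucc ω ω' a b c (fun i hi => by
        have hlt : (i : ℕ) < m := lt_trans (show (i : ℕ) < (j : ℕ) from hi) j.2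
        exact d ⟨(i : ℕ), hlt⟩ hi))
    have h2 := F.e_int_le (fun ω (_ : Fin 1) => X ω (Fin.last m)) (Setoid.ker (fun ω i => X ω (Fin.castSucc i)) ⊓ B)
      (D (Fin.last m)) (hD _) (fun ω ω' a b c _ => h (Fin.last m) ω ω' a b c.2 (fun i hi => by
        have hlt : (i : ℕ) < m := hi
        exact congrFun c.1 ⟨(i : ℕ), hlt⟩))
    rw [Nat.cast_one, one_mul] at h2
    have h3 : F.e (Setoid.ker X) B ≤ F.e (Setoid.ker (fun ω i => X ω (Fin.castSucc i)) ⊓
        Setoid.ker (fun ω (_ : Fin 1) => X ω (Fin.last m))) B := by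
      apply F.e_mono
      intro ω ω' _ _ a _
      show X ω = X ω'
      funext i
      induction i using Fin.lastCases with
      | last => exact congrFun a.2 0
      | cast i => exact congrFun a.1 i
    rw [F.e_chain] at h3
    rw [Fin.sum_univ_castSucc]
    linarith

variable {S : Sp} {M : ℕ}

/-- CHAIN for rates: cells of levels `β j`, known up to the levels `γ j` given the previous ones -/
theorem h_chain_le (x : ∀ k, (S.F k).Ω → Fin M → ℝ) (β γ : Fin M → ℝ) (hγ : ∀ j, γ j ≤ β j)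
    (B : ∀ k, Setoid (S.F k).Ω) (K : ℕ → ℝ) (hK : S.Sub K)
    (hB : ∀ᶠ k in UF, ∀ ω ω', (S.F k).μ ω ≠ 0 → (S.F k).μ ω' ≠ 0 → (S.F k).Z ω ω' → B k ω ω' → ∀ j : Fin M,
      (∀ i, i < j → |x k ω i - x k ω' i| ≤ S.dl (β i) k) → |x k ω j - x k ω' j| ≤ K k * S.dl (γ j) k)
    (ε : ℝ) (hε : 0 < ε) :
    ∀ᶠ k in UF, h (fc (Setoid.ker (fun ω (j : Fin M) => ⌊x k ω j / S.dl (β j) k⌋))) (fc (B k)) / (S.F k).n ≤
      ∑ j, (β j - γ j) + ε := by
  have h1 : Tendsto (fun k => M * (Real.logb 2 (K k + 2) / (S.F k).n)) UF (𝓝 (M * 0)) := hK.2.const_mul _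
  rw [mul_zero] at h1
  filter_upwards [hB, hK.1, h1.eventually (gt_mem_nhds hε)] with k hk hK0 hk2
  have hn := (S.F k).pos
  rw [h_fc, div_le_iff₀ hn]
  have hx1 : ∀ j, (1 : ℝ) ≤ 2 ^ ((β j - γ j) * (S.F k).n) := fun j =>
    Real.one_le_rpow (by norm_num) (mul_nonneg (sub_nonneg.mpr (hγ j)) hn.le)
  have e1 : ∀ j, S.dl (γ j) k = 2 ^ ((β j - γ j) * (S.F k).n) * S.dl (β j) k := by
    intro j
    unfold Sp.dl
    rw [← Real.rpow_add (by norm_num)]
    congr 1
    ring
  have h2 := e_chain_le (S.F k) (fun ω (j : Fin M) => ⌊x k ω j / S.dl (β j) k⌋) (B k ⊓ (S.F k).Z)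
    (fun j => K k * 2 ^ ((β j - γ j) * (S.F k).n) + 1) (fun j => by
      have := hx1 j
      positivity) (fun j ω ω' a b c d => by
      apply floor_diff (S.dl_pos (β j) k)
      have h4 := hk ω ω' a b c.2 c.1 j (fun i hi => abs_sub_le_of_floor_eq (S.dl_pos _ k) (d i hi))
      rw [e1] at h4
      rw [mul_assoc]
      exact h4)
  refine h2.trans ?_
  have h3 : ∀ j : Fin M, Real.logb 2 (K k * 2 ^ ((β j - γ j) * (S.F k).n) + 1 + 1) ≤
      (β j - γ j) * (S.F k).n + Real.logb 2 (K k + 2) := by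
    intro j
    have h4 := hx1 j
    have h6 : Real.logb 2 (K k * 2 ^ ((β j - γ j) * (S.F k).n) + 1 + 1) ≤
        Real.logb 2 (2 ^ ((β j - γ j) * (S.F k).n) * (K k + 2)) := by
      apply Real.logb_le_logb_of_le (by norm_num) (by positivity)
      nlinarith
    refine h6.trans (le_of_eq ?_)
    rw [Real.logb_mul (by positivity) (by positivity), Real.logb_rpow (by norm_num) (by norm_num)]
  refine (Finset.sum_le_sum fun j _ => h3 j).trans ?_
  rw [Finset.sum_add_distrib, ← Finset.sum_mul, Finset.sum_const, Finset.card_univ, Fintype.card_fin, nsmul_eq_mul,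
    add_mul]
  have h3 : M * (Real.logb 2 (K k + 2) / (S.F k).n) * (S.F k).n = M * Real.logb 2 (K k + 2) := by
    field_simp
  have h4 := mul_le_mul_of_nonneg_right hk2.le hn.le
  rw [h3] at h4
  linarith

/-- THE POINT GIVEN A LABEL WITH A FRAME: the coordinate `j` varies by a multiple of the variation of the previous ones
and of the variation of the frame coordinate -/
theorem frm_var {Q : S.VV M} {l : Lab S} {La : Fin M → ℝ} (f : Frm Q l La) (h0 : ∀ i, 0 < La i) :
    ∃ K : ℕ → ℝ, S.Sub K ∧ ∀ᶠ k in UF, ∀ ω ω' : (l.sp.F k).Ω, (l.sp.F k).μ ω ≠ 0 → (l.sp.F k).μ ω' ≠ 0 →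
      (l.sp.F k).Z ω ω' → l.V k ω ω' → ∀ (j : Fin M) (η : ℝ), S.dl 1 k ≤ η →
      (∀ i, i < j → |(l.pj.vv Q).v k ω i - (l.pj.vv Q).v k ω' i| ≤ η) →
        |(l.pj.vv Q).v k ω j - (l.pj.vv Q).v k ω' j| ≤ K k * η + S.dl (La j) k * |f.X.v k ω j - f.X.v k ω' j| := by
  obtain ⟨κ, hκ⟩ := frm_deg f h0
  obtain ⟨Kc, hKc, hc⟩ := f.bd
  obtain ⟨Kp, hKp, hp⟩ := f.pt
  obtain ⟨Kx, hKx', hx⟩ := f.X.bd
  have hKx : S.Sub Kx := (sp_Sub l).mp hKx'
  obtain ⟨L, hL⟩ : ∃ L : ℕ → ℝ, L = fun k => ((κ : ℝ) + 1) ^ M * Kc k * (κ * (Kx k + 1) ^ κ) := ⟨_, rfl⟩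
  have hLs : S.Sub L := by
    rw [hL]
    exact ((S.Sub_const (by positivity)).mul hKc).mul ((S.Sub_const (Nat.cast_nonneg _)).mul
      (Sub_pow' (hKx.add (S.Sub_const zero_le_one)) κ))
  obtain ⟨C, hC⟩ : ∃ C : ℕ → ℝ, C = fun k => 1 + L k + (Kp k + Kp k) := ⟨_, rfl⟩
  have hCs : S.Sub C := by
    rw [hC]
    exact ((S.Sub_const zero_le_one).add hLs).add (hKp.add hKp)
  refine ⟨fun k => L k * C k ^ M + (Kp k + Kp k), (hLs.mul (Sub_pow' hCs M)).add (hKp.add hKp), ?_⟩
  filter_upwards [hc, hp, hx, f.fn, hKc.1, hKp.1, hKx.1, hLs.1] with k c1 c2 c3 c4 c5 c6 c7 c8 ω ω' hω hω' hZ hV j η hη hi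
  have hd : ∀ a, 0 < S.dl a k := fun a => S.dl_pos a k
  have hη0 : 0 ≤ η := (hd 1).le.trans hη
  have hP := c4 ω ω' hω hω' hZ hV
  have hC1 : 1 ≤ C k := by
    rw [hC]
    show 1 ≤ 1 + L k + (Kp k + Kp k)
    linarith
  obtain ⟨U, hU⟩ : ∃ U : Fin M → ℝ, U = fun i => S.dl (La i) k * f.X.v k ω i := ⟨_, rfl⟩
  obtain ⟨U', hU'⟩ : ∃ U' : Fin M → ℝ, U' = fun i => S.dl (La i) k * f.X.v k ω' i := ⟨_, rfl⟩
  have hdi : ∀ i, S.dl (La i) k ≤ 1 := fun i => by
    rw [← S.dl_zero k]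
    exact S.dl_anti (h0 i).le k
  have hUb : ∀ i, |U i| ≤ Kx k + 1 := by
    intro i
    rw [hU]
    show |S.dl (La i) k * f.X.v k ω i| ≤ _
    rw [abs_mul, abs_of_pos (hd _)]
    have h1 := (mul_le_mul_of_nonneg_left (c3 ω hω i) (hd (La i)).le).trans (mul_le_of_le_one_left c7 (hdi i))
    linarith
  have hUb' : ∀ i, |U' i| ≤ Kx k + 1 := by
    intro i
    rw [hU']
    show |S.dl (La i) k * f.X.v k ω' i| ≤ _
    rw [abs_mul, abs_of_pos (hd _)]
    have h1 := (mul_le_mul_of_nonneg_left (c3 ω' hω' i) (hd (La i)).le).trans (mul_le_of_le_one_left c7 (hdi i))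
    linarith
  -- the chart is Lipschitz
  have lip : ∀ (i : Fin M) (δ : ℝ), 0 ≤ δ → (∀ i', i' < i → |U i' - U' i'| ≤ δ) →
      |MvPolynomial.eval U (f.P k ω i) - MvPolynomial.eval U' (f.P k ω i)| ≤ L k * δ := by
    intro i δ hδ hi'
    have h1 := Pool.Agent.Helper77.WDG.eval_sub_le (P := f.P k ω i) (T := Kx k + 1) (δ := δ) (by linarith)
      hδ (hκ k ω i) (u := U) (v := U') (fun i _ => hUb i) (fun i _ => hUb' i)
      (fun i' h' => hi' i' (f.tri k ω i i' h'))
    have h2 := Pool.Agent.Helper77.WDG.nrm_le_of_coeff (hκ k ω i) c5 (c1 ω hω i)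
    rw [Fintype.card_fin] at h2
    refine h1.trans ((mul_le_mul_of_nonneg_right h2 (by positivity)).trans (le_of_eq ?_))
    rw [hL]
    ring
  -- the coordinates in terms of the frame
  have ptE : ∀ i : Fin M, |((l.pj.vv Q).v k ω i - (l.pj.vv Q).v k ω' i) -
      ((MvPolynomial.eval U (f.P k ω i) - MvPolynomial.eval U' (f.P k ω i)) + (U i - U' i))| ≤
      (Kp k + Kp k) * S.dl 1 k := by
    intro i
    have h4 := c2 ω hω i
    have h5 := c2 ω' hω' i
    rw [← hP] at h5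
    have e2 : (fun i => S.dl (La i) k * f.X.v k ω i) = U := hU.symm
    have e3 : (fun i => S.dl (La i) k * f.X.v k ω' i) = U' := hU'.symm
    have e4 : S.dl (La i) k * f.X.v k ω i = U i := (congrFun hU i).symm
    have e5 : S.dl (La i) k * f.X.v k ω' i = U' i := (congrFun hU' i).symm
    rw [e2, e4] at h4
    rw [e3, e5] at h5
    have e6 : ((l.pj.vv Q).v k ω i - (l.pj.vv Q).v k ω' i) -
        ((MvPolynomial.eval U (f.P k ω i) - MvPolynomial.eval U' (f.P k ω i)) + (U i - U' i)) =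
        ((l.pj.vv Q).v k ω i - (MvPolynomial.eval U (f.P k ω i) + U i)) -
        ((l.pj.vv Q).v k ω' i - (MvPolynomial.eval U' (f.P k ω i) + U' i)) := by ring
    rw [e6, add_mul]
    exact (abs_sub _ _).trans (add_le_add h4 h5)
  -- the frame coordinates
  have main : ∀ m : ℕ, (∀ i : Fin M, (i : ℕ) < m → i < j) → ∀ i : Fin M, (i : ℕ) < m → |U i - U' i| ≤ C k ^ m * η := by
    intro m
    induction m with
    | zero => intro _ i hi0; exact absurd hi0 (Nat.not_lt_zero _)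
    | succ m ih =>
      intro hm i hi1
      have ih' := ih (fun i hi => hm i (Nat.lt_succ_of_lt hi))
      have hCm : 1 ≤ C k ^ m := one_le_pow₀ hC1
      have hCm' : C k ^ m ≤ C k ^ (m + 1) := pow_le_pow_right₀ hC1 (Nat.le_succ m)
      rcases Nat.lt_or_ge (i : ℕ) m with h | h
      · exact (ih' i h).trans (mul_le_mul_of_nonneg_right hCm' hη0)
      · have h1 := lip i (C k ^ m * η) (by positivity) (fun i' hi' => ih' i' (by
          have : (i' : ℕ) < (i : ℕ) := hi'
          omega))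
        have h2 := ptE i
        have h3 := hi i (hm i hi1)
        have h4 : (Kp k + Kp k) * S.dl 1 k ≤ (Kp k + Kp k) * η := mul_le_mul_of_nonneg_left hη (by linarith)
        have h5 : |U i - U' i| ≤ η + L k * (C k ^ m * η) + (Kp k + Kp k) * η := by
          rw [abs_le] at h1 h2 h3 ⊢
          constructor <;> linarith [h1.1, h1.2, h2.1, h2.2, h3.1, h3.2]
        refine h5.trans ?_
        have h6 : η + L k * (C k ^ m * η) + (Kp k + Kp k) * η ≤
            (1 + L k + (Kp k + Kp k)) * (C k ^ m * η) := by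
          have h7 : η ≤ C k ^ m * η := le_mul_of_one_le_left hη0 hCm
          have h8 : (Kp k + Kp k) * η ≤ (Kp k + Kp k) * (C k ^ m * η) :=
            mul_le_mul_of_nonneg_left h7 (by linarith)
          nlinarith
        refine h6.trans (le_of_eq ?_)
        have h9 : 1 + L k + (Kp k + Kp k) = C k := (congrFun hC k).symm
        rw [h9, pow_succ]
        ring
  have h1 := lip j (C k ^ M * η) (by positivity) (fun i hi' => by
    have h2 := main (j : ℕ) (fun i hi => hi) i hi'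
    exact h2.trans (mul_le_mul_of_nonneg_right (pow_le_pow_right₀ hC1 j.2.le) hη0))
  have h2 := ptE j
  have h4 : (Kp k + Kp k) * S.dl 1 k ≤ (Kp k + Kp k) * η := mul_le_mul_of_nonneg_left hη (by linarith)
  have h5 : |U j - U' j| = S.dl (La j) k * |f.X.v k ω j - f.X.v k ω' j| := by
    rw [hU, hU']
    show |S.dl (La j) k * f.X.v k ω j - S.dl (La j) k * f.X.v k ω' j| = _
    rw [← mul_sub, abs_mul, abs_of_pos (hd _)]
  rw [← h5]
  have h6 := le_abs_self (U j - U' j)
  have h7 := neg_abs_le (U j - U' j)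
  rw [abs_le] at h1 h2 ⊢
  constructor <;> nlinarith [h1.1, h1.2, h2.1, h2.2]

end

end Pool.Agent.Helper30.ZN
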