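import Pool.Agent.Helper30.ZN.Zoo

/-! ZNUM: the field `num` of `Hom` for a zoom and for a truncation, from the field `num` of the system and the boxes of
the zoom or of the truncation. -/

set_option autoImplicit false

namespace Pool.Agent.Helper30.ZN

open Finset Filter Topology Pool.Agent.Helper69.RK Pool.Agent.Helper31.EC Pool.Agent.Helper31.EC.Sp
open Pool.Agent.Helper40.EL Pool.Agent.Helper89.LX Pool.Agent.Helper3.LF Pool.Agent.Helper84.MT
open Pool.Agent.Helper36.AM (Frm Gz cel2)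
open Pool.Agent.Helper52.SL (untF tnF untL tnL nul_trn)
open Pool.Agent.Helper7.GZ

noncomputable section

variable {S : Sp} {M : ℕ} {E E' : ℕ → ℕ} {ι : Type}

theorem NV_mul (w : Fin (M + 1) → ℝ) (ρ e c a b : ℝ) : NV w ρ (e * c) (e * a) (e * b) = e * NV w ρ c a b := by
  unfold NV
  have e4 : ∑ j : Fin M, (e * a - w j.castSucc * (e * c)) = e * ∑ j : Fin M, (a - w j.castSucc * c) := by
    rw [Finset.mul_sum]
    exact Finset.sum_congr rfl fun j _ => by ring
  rw [mul_add e, e4]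
  ring

theorem H_tr (x : S.L) {r : ℝ} (h0 : 0 < r) : H (chgL S.tr r h0 x) = H x / r := by
  have e2 : hZ S.tr x = H x := by
    induction x using cl_ind
    rw [hZ_cl, H_cl]
  rw [H_chgL, e2]

/-- the field `num` of `Hom` for one system -/
def NumF (s : MSys S (M + 1) E ι) (w : Fin (M + 1) → ℝ) (ρ : ℝ) : Prop :=
  ∀ c b a : ℝ, 0 ≤ c → w (Fin.last M) * c ≤ b → b ≤ a → a ≤ 1 → ∀ l : Lab S, s.IsKap c l →
    Tendsto (fun k => h ((l k).p.map (cel2 s.Q (Fin.last M) a b k)) (l k).v / (S.F k).n) UF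
      (𝓝 (∑ j : Fin M, (a - w j.castSucc * c) + (1 - ρ) * (b - w (Fin.last M) * c)))

/-- the same for the open range of windows -/
def NumS (s : MSys S (M + 1) E ι) (w : Fin (M + 1) → ℝ) (ρ : ℝ) : Prop :=
  ∀ c b a : ℝ, 0 ≤ c → w (Fin.last M) * c < 1 → w (Fin.last M) * c ≤ b → b ≤ a → a ≤ 1 → ∀ l : Lab S, s.IsKap c l →
    Tendsto (fun k => h ((l k).p.map (cel2 s.Q (Fin.last M) a b k)) (l k).v / (S.F k).n) UF
      (𝓝 (∑ j : Fin M, (a - w j.castSucc * c) + (1 - ρ) * (b - w (Fin.last M) * c)))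

theorem NumF.strict {s : MSys S (M + 1) E ι} {w : Fin (M + 1) → ℝ} {ρ : ℝ} (h : NumF s w ρ) : NumS s w ρ :=
  fun c b a h0 _ h1 h2 h3 l hl => h c b a h0 h1 h2 h3 l hl

/-- the field `box` of `Hom` for one system -/
def BoxF (s : MSys S (M + 1) E ι) (w : Fin (M + 1) → ℝ) : Prop :=
  ∀ c : ℝ, 0 < c → w (Fin.last M) * c < 1 → ∃ (l : Lab S) (_ : Frm s.Q l (fun j => w j * c)), s.IsKap c l

theorem NumF.eq {s : MSys S (M + 1) E ι} {w : Fin (M + 1) → ℝ} {ρ : ℝ} (h : NumF s w ρ) {c b a : ℝ} (h0 : 0 ≤ c)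
    (h1 : w (Fin.last M) * c ≤ b) (h2 : b ≤ a) (h3 : a ≤ 1) {l : Lab S} (hl : s.IsKap c l) :
    H (up1 l (cel2L s.Q (Fin.last M) a b)) = NV w ρ c a b := (num_iff _ _ _ _ _ _).1 (h c b a h0 h1 h2 h3 l hl)

theorem NumS.eq {s : MSys S (M + 1) E ι} {w : Fin (M + 1) → ℝ} {ρ : ℝ} (h : NumS s w ρ) {c b a : ℝ} (h0 : 0 ≤ c)
    (hs : w (Fin.last M) * c < 1) (h1 : w (Fin.last M) * c ≤ b) (h2 : b ≤ a) (h3 : a ≤ 1) {l : Lab S}
    (hl : s.IsKap c l) : H (up1 l (cel2L s.Q (Fin.last M) a b)) = NV w ρ c a b :=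
  (num_iff _ _ _ _ _ _).1 (h c b a h0 hs h1 h2 h3 l hl)

theorem TD.numS [Countable ι] {t : MSys S (M + 1) E ι} {w : Fin (M + 1) → ℝ} {ρ : ℝ} (Z : TD t w ρ) : NumS t w ρ :=
  fun _ _ _ h0 hs h1 h2 h3 _ hl => (num_iff _ _ _ _ _ _).2 (Z.num_eq h0 hs h1 h2 h3 hl)

/-- the boundary `w_last c = 1` -/
theorem TD.numF [Countable ι] {t : MSys S (M + 1) E ι} {w : Fin (M + 1) → ℝ} {ρ : ℝ} (Z : TD t w ρ)
    (hb : ∀ c : ℝ, 0 ≤ c → w (Fin.last M) * c = 1 → ∀ y : Lab S, t.DMc c y →
      NV w ρ c 1 1 ≤ H (up1 y (cel2L t.Q (Fin.last M) 1 1))) : NumF t w ρ := by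
  intro c b a h0 h1 h2 h3 l hl
  rcases lt_or_ge (w (Fin.last M) * c) 1 with hs | hs
  · exact Z.numS c b a h0 hs h1 h2 h3 l hl
  · have hb1 : b = 1 := le_antisymm (h2.trans h3) (hs.trans h1)
    have ha1 : a = 1 := le_antisymm h3 (hb1 ▸ h2)
    have hc1 : w (Fin.last M) * c = 1 := le_antisymm (hb1 ▸ h1) hs
    refine (num_iff _ _ _ _ _ _).2 (le_antisymm (Z.upp h0 h1 h2 h3 hl) ?_)
    rw [hb1, ha1]
    exact hb c h0 hc1 l hl.1

/-- the data of a zoom -/
theorem zd_zoom [Finite ι] {g : ℕ} {s : MSys S (M + 1) (Pool.Agent.Helper84.MT.lin g) ι} {w : Fin (M + 1) → ℝ}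
    {ρ : ℝ} {l : Lab S} {c e : ℝ} (f : Frm s.Q l (fun j => w j * c)) (hc : 0 < c) (he : 0 < e)
    (h1 : w (Fin.last M) * c + e ≤ 1) (hw : ∀ j, 1 ≤ w j) (mono : Monotone w) (r0 : 0 ≤ ρ) (r1 : ρ ≤ 1)
    (hl : s.IsKap c l) {t : MSys (l.ovr e he) (M + 1) E' ι} (gz : Gz s l c e he f.X t) (hn : NumS s w ρ)
    (hb : BoxF t w) : Nonempty (ZD s w ρ l c e he t) := by
  have wz := hw (Fin.last M)
  have hwe : ∀ j, w j * c + e ≤ 1 := fun j => by
    have := mul_le_mul_of_nonneg_right (mono (Fin.le_last j)) hc.le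
    linarith
  have hce : c + e ≤ 1 := by nlinarith
  obtain ⟨W, hW⟩ : ∃ W : ℕ, ∀ j, w j ≤ W := by
    obtain ⟨W, hW⟩ := exists_nat_ge (∑ j, w j)
    exact ⟨W, fun j => (Finset.single_le_sum (f := w) (fun i _ => zero_le_one.trans (hw i))
      (Finset.mem_univ j)).trans hW⟩
  exact ⟨{ f := f
           hc := hc
           h1 := h1
           hw := hw
           mono := fun j => mono (Fin.le_last j)
           rho1 := r1
           rho0 := r0
           kap := hl
           pt := gz.pt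
           hpcd := ((frzW f hc he hce hwe hl.1 hw hW).rzX t.Q
            ((frzW f hc he hce hwe hl.1 hw hW).gz_isX gz)).pcd_up
           lab := (gz_all f hc he hce hwe hl.1 hw gz).2.1
           num := fun c' b h0 hs h1 h2 L hL => hn.eq h0 hs h1 h2 le_rfl hL
           box := hb }⟩

/-- **[ZNUM]**, open range: the field `num` of a zoom -/
theorem num_zoomS [Finite ι] {g : ℕ} {s : MSys S (M + 1) (Pool.Agent.Helper84.MT.lin g) ι} {w : Fin (M + 1) → ℝ}
    {ρ : ℝ} {l : Lab S} {c e : ℝ} (f : Frm s.Q l (fun j => w j * c)) (hc : 0 < c) (he : 0 < e)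
    (h1 : w (Fin.last M) * c + e ≤ 1) (hw : ∀ j, 1 ≤ w j) (mono : Monotone w) (r0 : 0 ≤ ρ) (r1 : ρ ≤ 1)
    (hl : s.IsKap c l) {t : MSys (l.ovr e he) (M + 1) E' ι} (gz : Gz s l c e he f.X t) (hn : NumS s w ρ)
    (hb : BoxF t w) : NumS t w ρ := by
  obtain ⟨Z⟩ := zd_zoom f hc he h1 hw mono r0 r1 hl gz hn hb
  exact Z.td.numS

/-- **[ZNUM]**: the field `num` of a zoom -/
theorem num_zoom [Finite ι] {g : ℕ} {s : MSys S (M + 1) (Pool.Agent.Helper84.MT.lin g) ι} {w : Fin (M + 1) → ℝ}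
    {ρ : ℝ} {l : Lab S} {c e : ℝ} (f : Frm s.Q l (fun j => w j * c)) (hc : 0 < c) (he : 0 < e)
    (h1 : w (Fin.last M) * c + e ≤ 1) (hw : ∀ j, 1 ≤ w j) (mono : Monotone w) (r0 : 0 ≤ ρ) (r1 : ρ ≤ 1)
    (hl : s.IsKap c l) {t : MSys (l.ovr e he) (M + 1) E' ι} (gz : Gz s l c e he f.X t) (hn : NumF s w ρ)
    (hb : BoxF t w) : NumF t w ρ := by
  obtain ⟨Z⟩ := zd_zoom f hc he h1 hw mono r0 r1 hl gz hn.strict hb
  refine Z.td.numF fun c' h0 hc' y hy => ?_
  have wz := hw (Fin.last M)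
  have hc1 : c' ≤ 1 := by nlinarith
  have hL := Z.lab c' h0 hc1 y hy
  have h2 := hn.eq (c := c + e * c') (b := w (Fin.last M) * c + e * 1) (a := 1) (by positivity) (by nlinarith)
    (by linarith) le_rfl (s.kap_isKap (c + e * c'))
  exact Z.low_aux le_rfl le_rfl (h2.ge.trans (MSys.IsKap.H_le (s.kap_isKap (c + e * c')) hL _))

/-- the data of a truncation -/
theorem td_trn [Countable ι] {s : MSys S (M + 1) E ι} {w : Fin (M + 1) → ℝ} {ρ : ℝ} (hw : ∀ j, 1 ≤ w j)
    (mono : Monotone w) (r0 : 0 ≤ ρ) (r1 : ρ ≤ 1) (con : s.Con 0) (hn : NumS s w ρ) {e : ℝ} (he : 0 < e) (h1 : e ≤ 1)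
    (hb : BoxF (s.trn e he h1) w) : TD (s.trn e he h1) w ρ := by
  have wz := hw (Fin.last M)
  have nle : ∀ {c b a : ℝ}, 0 ≤ c → w (Fin.last M) * c < 1 → w (Fin.last M) * c ≤ b → b ≤ a → a ≤ 1 →
      ∀ {L : Lab S}, s.DMc c L → NV w ρ c a b ≤ H (up1 L (cel2L s.Q (Fin.last M) a b)) := by
    intro c b a h0 hs h1 h2 h3 L hL
    rw [← hn.eq h0 hs h1 h2 h3 (s.kap_isKap c)]
    exact MSys.IsKap.H_le (s.kap_isKap c) hL _
  exact {
      hw := hw
      mono := fun j => mono (Fin.le_last j)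
      rho1 := r1
      rho0 := r0
      low := by
        intro c b a h0 hs hb hba ha y hy
        have h2 := nle (c := e * c) (b := e * b) (a := e * a) (by positivity) (by
          have := mul_lt_mul_of_pos_left hs he
          linarith) (by
          have := mul_le_mul_of_nonneg_left hb he.le
          linarith) (mul_le_mul_of_nonneg_left hba he.le) (by nlinarith)
          (MSys.DMc.of_trn (s := s) (h0 := he) (h1 := h1) le_rfl hy)
        rw [H_trn] at h2
        rw [NV_mul] at h2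
        exact le_of_mul_le_mul_left h2 he
      info := by
        intro c h0 hc1 y hy X
        have hc1' : c ≤ 1 := by nlinarith
        obtain ⟨A, hA⟩ : ∃ A, A = (s.trn e he h1).Q.dg 1 := ⟨_, rfl⟩
        have hleak : Nul (S.chg S.tr e he) (fun k => (y k).leak (rp A k)) := by
          have g2 : PLe (pcd (s.trn e he h1).Q) (rp A) := by
            rw [hA]
            exact (pcd_rp (s.trn e he h1).Q).2
          exact (Nul.add (hy none) g2).of_le (Eventually.of_forall fun _ => FLab.leak_nonneg _ _)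
            (Eventually.of_forall fun k => (y k).leak_le_leak (rp A k) (pcd (s.trn e he h1).Q k))
        have h2 := H_le_info hleak X
        have hL : s.DMc (e * c) (untL y) := MSys.DMc.of_trn (s := s) (h0 := he) (h1 := h1) le_rfl hy
        have q3 := mul_lt_mul_of_pos_left hc1 he
        have h3 := nle (c := e * c) (b := 1) (a := 1) (by positivity) (by linarith) (by linarith) le_rfl le_rfl hL
        -- the point at the window zero
        have h4 : H (cel2L s.Q (Fin.last M) 1 1) ≤ NV w ρ 0 1 1 := by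
          rw [← hn.eq le_rfl (by rw [mul_zero]; exact one_pos) (by rw [mul_zero]; exact zero_le_one) le_rfl le_rfl
            (s.kap_isKap 0)]
          have h5 : Nul S (fun k => ((s.kap 0) k).info) := con _ (s.kap_isKap 0).1
          have h6 : (s.kap 0).info = 0 := ul_eq h5
          have h7 : Nul S (fun k => ((s.kap 0) k).leak (rp (s.Q.dg 1) k)) :=
            (Nul.add ((s.kap_isKap 0).1 none) (pcd_rp s.Q).2).of_le
              (Eventually.of_forall fun _ => FLab.leak_nonneg _ _)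
              (Eventually.of_forall fun k => ((s.kap 0) k).leak_le_leak (rp (s.Q.dg 1) k) (pcd s.Q k))
          have h8 : (s.kap 0).info = H (s.Q.dg 1) - 1 * H (up1 (s.kap 0) (s.Q.dg 1)) :=
            Lab.info_eq_of_leak (c := 1) (hc := one_pos) h7
          rw [cel2L_self]
          linarith
        have h5 : H (up1 y A) * e = H (up1 (untL y) (cel2L s.Q (Fin.last M) e e)) := by
          have h6 := H_trn s.Q (h0 := he) (Fin.last M) 1 1 y
          rw [mul_one] at h6
          rw [h6, mul_comm, hA, ← cel2L_self (s.trn e he h1).Q (Fin.last M) 1]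
          rfl
        have h6 : H A * e = H (cel2L s.Q (Fin.last M) e e) := by
          have e1 : A = chgL S.tr e he (s.Q.dg e) := by
            rw [hA]
            have e2 : (s.trn e he h1).Q.dg 1 = chgL S.tr e he (s.Q.dg (e * 1)) := VV.chg_dg S.tr e he s.Q 1
            rw [e2, mul_one]
          rw [e1, H_tr, cel2L_self, div_mul_cancel₀ _ he.ne']
        have h7 := h_up1_le (untL y) (cel2L s.Q (Fin.last M) 1 1) (cel2L s.Q (Fin.last M) e e)
        have hle : cel2L s.Q (Fin.last M) e e ≤ cel2L s.Q (Fin.last M) 1 1 := cel2L_mono _ _ h1 h1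
        have e1 : h (up1 (untL y) (cel2L s.Q (Fin.last M) 1 1)) (up1 (untL y) (cel2L s.Q (Fin.last M) e e)) =
            H (up1 (untL y) (cel2L s.Q (Fin.last M) 1 1)) - H (up1 (untL y) (cel2L s.Q (Fin.last M) e e)) := by
          show H (_ ⊔ _) - _ = _
          rw [sup_eq_left.mpr (up1_mono _ hle)]
        have e2 : h (cel2L s.Q (Fin.last M) 1 1) (cel2L s.Q (Fin.last M) e e) =
            H (cel2L s.Q (Fin.last M) 1 1) - H (cel2L s.Q (Fin.last M) e e) := by
          show H (_ ⊔ _) - _ = _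
          rw [sup_eq_left.mpr hle]
        rw [e1, e2] at h7
        have e3 : NV w ρ 0 1 1 - NV w ρ (e * c) 1 1 =
            (∑ j : Fin M, w j.castSucc * c + (1 - ρ) * (w (Fin.last M) * c)) * e := by
          unfold NV
          have e4 : ∑ j : Fin M, (1 - w j.castSucc * 0) - ∑ j : Fin M, (1 - w j.castSucc * (e * c)) =
              (∑ j : Fin M, w j.castSucc * c) * e := by
            rw [← Finset.sum_sub_distrib, Finset.sum_mul]
            exact Finset.sum_congr rfl fun j _ => by ring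
          rw [add_mul, ← e4]
          ring
        have h8 : (H A - H (up1 y A)) * e ≤
            (∑ j : Fin M, w j.castSucc * c + (1 - ρ) * (w (Fin.last M) * c)) * e := by
          rw [← e3, sub_mul, h5, h6]
          linarith
        have h9 := le_of_mul_le_mul_right h8 he
        linarith
      box := hb }

/-- **the field `num` of a truncation**, open range -/
theorem num_trnS [Countable ι] {s : MSys S (M + 1) E ι} {w : Fin (M + 1) → ℝ} {ρ : ℝ} (hw : ∀ j, 1 ≤ w j)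
    (mono : Monotone w) (r0 : 0 ≤ ρ) (r1 : ρ ≤ 1) (con : s.Con 0) (hn : NumS s w ρ) {e : ℝ} (he : 0 < e) (h1 : e ≤ 1)
    (hb : BoxF (s.trn e he h1) w) : NumS (s.trn e he h1) w ρ := (td_trn hw mono r0 r1 con hn he h1 hb).numS

/-- proper truncations satisfy the field `num` also at the boundary -/
theorem num_trn_lt [Countable ι] {s : MSys S (M + 1) E ι} {w : Fin (M + 1) → ℝ} {ρ : ℝ} (hw : ∀ j, 1 ≤ w j)
    (mono : Monotone w) (r0 : 0 ≤ ρ) (r1 : ρ ≤ 1) (con : s.Con 0) (hn : NumS s w ρ) {e : ℝ} (he : 0 < e) (h1 : e < 1)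
    (hb : BoxF (s.trn e he h1.le) w) : NumF (s.trn e he h1.le) w ρ := by
  refine (td_trn hw mono r0 r1 con hn he h1.le hb).numF fun c h0 hc y hy => ?_
  have h2 := hn.eq (c := e * c) (b := e * 1) (a := e * 1) (by positivity) (by nlinarith) (by nlinarith) le_rfl
    (by linarith) (s.kap_isKap (e * c))
  have h3 := h2.ge.trans (MSys.IsKap.H_le (s.kap_isKap (e * c))
    (MSys.DMc.of_trn (s := s) (h0 := he) (h1 := h1.le) le_rfl hy) _)
  rw [H_trn, NV_mul] at h3
  exact le_of_mul_le_mul_left h3 he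

/-- **the field `num` of a truncation** -/
theorem num_trn' [Countable ι] {s : MSys S (M + 1) E ι} {w : Fin (M + 1) → ℝ} {ρ : ℝ} (hw : ∀ j, 1 ≤ w j)
    (mono : Monotone w) (r0 : 0 ≤ ρ) (r1 : ρ ≤ 1) (con : s.Con 0) (hn : NumF s w ρ) {e : ℝ} (he : 0 < e) (h1 : e ≤ 1)
    (hb : BoxF (s.trn e he h1) w) : NumF (s.trn e he h1) w ρ := by
  refine (td_trn hw mono r0 r1 con hn.strict he h1 hb).numF fun c h0 hc y hy => ?_
  have h2 := hn.eq (c := e * c) (b := e * 1) (a := e * 1) (by positivity) (by nlinarith) le_rfl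
    (by linarith) (s.kap_isKap (e * c))
  have h3 := h2.ge.trans (MSys.IsKap.H_le (s.kap_isKap (e * c))
    (MSys.DMc.of_trn (s := s) (h0 := he) (h1 := h1) le_rfl hy) _)
  rw [H_trn, NV_mul] at h3
  exact le_of_mul_le_mul_left h3 he

end

end Pool.Agent.Helper30.ZN
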