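import Pool.Agent.Helper89.RAK.Zom
import Pool.Agent.Helper89.RAT.Win
import Pool.Agent.Helper26.MT.Zd

/-! POINTWISE COMPARISON OF THE EXPONENTS of a form in the system and in the zoom: two sided, typical. One side is
pointwise (`gx_inn`, `xz_inn`), the means are equal, so both sides hold typically. -/

set_option autoImplicit false

namespace Pool.Agent.Helper30.ZN

open Finset Filter Topology Matrix Pool.Agent.Helper69.RK Pool.Agent.Helper31.EC Pool.Agent.Helper31.EC.Sp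
open Pool.Agent.Helper40.EL Pool.Agent.Helper89.LX Pool.Agent.Helper3.LF Pool.Agent.Helper84.MT Pool.Agent.Helper26.MZ
open Pool.Agent.Helper95.LF (PdM)
open Pool.Agent.Helper3.ZM (aff MM afm afm_symm afm_nonneg phi_afm)
open Pool.Agent.Helper14.MC (gx vx vol_eq vx_UB vx_nonneg vol_opt_le vol_opt_eq)
open Pool.Agent.Helper89.RAT (Jz xz zv zx one_le_Jz zv_UB xz_bd xz_inn zx_inn single_dv zx_opt)
open Pool.Agent.Helper89.RAK (KC zR optK_inn optK_out volK_zoom zxK_le adfK_inn adfK_out)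

noncomputable section

/-- a bounded function which is typically almost nonnegative and has a small mean is typically small -/
theorem typ_of_mean (F : ℕ → FSp) (d : ∀ k, (F k).Ω → ℝ) (E : ∀ k, (F k).Ω → Prop) (t : ℕ → ℝ)
    (ht : Tendsto t UF (𝓝 0)) (C : ℝ) (hE : Tendsto (fun k => (F k).pb (fun ω => ¬ E k ω)) UF (𝓝 0))
    (h1 : ∀ᶠ k in UF, ∀ ω, (F k).μ ω ≠ 0 → E k ω → -(t k) ≤ d k ω)
    (h2 : ∀ᶠ k in UF, ∀ ω, (F k).μ ω ≠ 0 → |d k ω| ≤ C)
    (hm : Tendsto (fun k => ∑ ω, (F k).μ ω * d k ω) UF (𝓝 0)) (e : ℝ) (he : 0 < e) :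
    Tendsto (fun k => (F k).pb (fun ω => ¬ |d k ω| ≤ e)) UF (𝓝 0) := by
  classical
  have t1 : Tendsto (fun k => ((∑ ω, (F k).μ ω * d k ω) + |t k| + (C + e) * (F k).pb (fun ω => ¬ E k ω)) / e) UF
      (𝓝 ((0 + |0| + (C + e) * 0) / e)) := (((hm.add ht.abs).add (hE.const_mul (C + e)))).div_const e
  rw [abs_zero, mul_zero, add_zero, add_zero, zero_div] at t1
  refine squeeze_zero' (Eventually.of_forall fun k => (F k).pb_nonneg _) ?_ t1
  have t2 : ∀ᶠ k in UF, |t k| < e := by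
    have t3 := ht.abs
    rw [abs_zero] at t3
    exact t3.eventually (gt_mem_nhds he)
  filter_upwards [h1, h2, t2] with k a b c
  rw [le_div_iff₀ he, Pool.Agent.Helper3.PR.pb_sum, Pool.Agent.Helper3.PR.pb_sum, Finset.sum_mul, Finset.mul_sum]
  have e1 : |t k| = ∑ ω, (F k).μ ω * |t k| := by
    rw [← Finset.sum_mul, Pool.Agent.Helper3.PR.sum_mu, one_mul]
  rw [e1, ← Finset.sum_add_distrib, ← Finset.sum_add_distrib]
  refine Finset.sum_le_sum fun ω _ => ?_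
  by_cases h0 : (F k).μ ω = 0
  · rw [h0]
    simp only [zero_mul, mul_zero, add_zero, le_refl]
  · have hb := b ω h0
    have hC : 0 ≤ C := (abs_nonneg _).trans hb
    have key : (if ¬ |d k ω| ≤ e then (1 : ℝ) else 0) * e ≤
        d k ω + |t k| + (C + e) * (if ¬ E k ω then (1 : ℝ) else 0) := by
      have hd1 := neg_abs_le (d k ω)
      have ht1 := abs_nonneg (t k)
      have ht2 := le_abs_self (t k)
      by_cases hE' : E k ω
      · rw [if_neg (not_not.mpr hE'), mul_zero, add_zero]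
        have h3 := a ω h0 hE'
        by_cases hd : |d k ω| ≤ e
        · rw [if_neg (not_not.mpr hd), zero_mul]
          linarith
        · rw [if_pos hd, one_mul]
          have h4 := not_le.mp hd
          have h5 : 0 ≤ d k ω := by
            by_contra hn
            have h6 : |d k ω| = -d k ω := abs_of_neg (not_le.mp hn)
            linarith
          rw [abs_of_nonneg h5] at h4
          linarith
      · rw [if_pos hE', mul_one]
        by_cases hd : |d k ω| ≤ e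
        · rw [if_neg (not_not.mpr hd), zero_mul]
          linarith
        · rw [if_pos hd, one_mul]
          linarith
    have h3 := mul_le_mul_of_nonneg_left key ((F k).nn ω)
    refine (le_of_eq ?_).trans (h3.trans (le_of_eq ?_)) <;> ring_nf

variable {S : Sp} {M D : ℕ} {E : ℕ → ℕ} {ι : Type} {s : MSys S M E ι} (Z : ZM s)

/-- the form of the zoom on the space of both labels: two sided comparison of the exponents -/
theorem gx_two_of {κ κ' : Type} {A : κ → Part S} {B : κ' → Part Z.sp} {x : ∀ k, FD (S.F k) (Mon M D)}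
    (hx : (gaq s.Q D).Adf A x) (hy : (gaq Z.sys.Q D).Adf B (Z.inn x))
    (hv : vol s.Q D x = Z.e * vol Z.sys.Q D (Z.inn x)) (e : ℝ) (he : 0 < e) :
    Tendsto (fun k => ((Z.l k).am (x k).l).sp.pb (fun ω =>
      ¬ |gx s.Q k ((x k).l.p.π (((Z.l k).am (x k).l).p2.π ω)) ((x k).g (((Z.l k).am (x k).l).p2.π ω)) -
        (Z.c * M + Z.e * gx Z.sys.Q k (((Z.l k).am (x k).l).p1.π ω) ((Z.inn x k).g ω))| ≤ e)) UF (𝓝 0) := by
  obtain ⟨C, hC, hbd⟩ := gx_bd hx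
  obtain ⟨C', hC', hbd'⟩ := gx_bd hy
  have hUx := vx_UB hx
  have hUy := vx_UB hy
  have e1 : ∀ k, ∑ ω, ((Z.l k).am (x k).l).sp.μ ω * gx s.Q k ((x k).l.p.π (((Z.l k).am (x k).l).p2.π ω))
      ((x k).g (((Z.l k).am (x k).l).p2.π ω)) = vx s.Q x k := fun k =>
    sum_push ((Z.l k).am (x k).l).p2 (fun ω => gx s.Q k ((x k).l.p.π ω) ((x k).g ω))
  have e2 : ∀ k, ∑ ω, ((Z.l k).am (x k).l).sp.μ ω * (Z.c * M + Z.e * gx Z.sys.Q k (((Z.l k).am (x k).l).p1.π ω)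
      ((Z.inn x k).g ω)) = Z.c * M + Z.e * vx Z.sys.Q (Z.inn x) k := by
    intro k
    have e4 : ∀ ω, ((Z.l k).am (x k).l).sp.μ ω * (Z.c * M + Z.e * gx Z.sys.Q k (((Z.l k).am (x k).l).p1.π ω)
        ((Z.inn x k).g ω)) = ((Z.l k).am (x k).l).sp.μ ω * (Z.c * M) + Z.e * (((Z.l k).am (x k).l).sp.μ ω *
        gx Z.sys.Q k (((Z.l k).am (x k).l).p1.π ω) ((Z.inn x k).g ω)) := fun ω => by ring
    rw [Finset.sum_congr rfl fun ω _ => e4 ω, Finset.sum_add_distrib, ← Finset.sum_mul, ← Finset.mul_sum,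
      Pool.Agent.Helper3.PR.sum_mu, one_mul]
    rfl
  have hm : Tendsto (fun k => ∑ ω, ((Z.l k).am (x k).l).sp.μ ω *
      ((Z.c * M + Z.e * gx Z.sys.Q k (((Z.l k).am (x k).l).p1.π ω) ((Z.inn x k).g ω)) -
        gx s.Q k ((x k).l.p.π (((Z.l k).am (x k).l).p2.π ω)) ((x k).g (((Z.l k).am (x k).l).p2.π ω)))) UF (𝓝 0) := by
    have t1 := ((ul_tendsto hUy).const_mul Z.e).const_add (Z.c * M)
    have t2 := t1.sub (ul_tendsto hUx)
    have e5 : Z.c * M + Z.e * ul (vx Z.sys.Q (Z.inn x)) - ul (vx s.Q x) = 0 := by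
      rw [vol_eq, vol_eq] at hv
      have h3 : (M : ℝ) = Z.c * M + Z.e * M := by rw [← add_mul, Z.c_add_e, one_mul]
      have h4 : Z.e * ((M : ℝ) - ul (vx Z.sys.Q (Z.inn x))) = Z.e * M - Z.e * ul (vx Z.sys.Q (Z.inn x)) := by ring
      rw [h4] at hv
      linarith
    rw [e5] at t2
    refine t2.congr fun k => ?_
    rw [← e1, ← e2, ← Finset.sum_sub_distrib]
    exact Finset.sum_congr rfl fun ω _ => by ring
  have key := typ_of_mean (fun k => ((Z.l k).am (x k).l).sp)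
    (fun k ω => (Z.c * M + Z.e * gx Z.sys.Q k (((Z.l k).am (x k).l).p1.π ω) ((Z.inn x k).g ω)) -
        gx s.Q k ((x k).l.p.π (((Z.l k).am (x k).l).p2.π ω)) ((x k).g (((Z.l k).am (x k).l).p2.π ω)))
    (fun k ω => Cpd ((gaq Z.sys.Q D).cp k) (Z.ifm x k ω)) (fun _ => 0) tendsto_const_nhds
    (Z.c * M + Z.e * C' + C) (Z.inn_typ hx) (by
      filter_upwards [hx 1 one_pos] with k h2 ω hω hE
      have a0 := Z.inn_g k ω hE
      have a1 := Z.gx_inn x k ω hω (h2.2.1 _ (((Z.l k).am (x k).l).p2.supp ω hω)).1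
      rw [a0]
      linarith) (by
      filter_upwards [hbd, hbd'] with k h2 h3 ω hω
      have g1 := h2 _ (((Z.l k).am (x k).l).p2.supp ω hω)
      have g2 : 0 ≤ gx Z.sys.Q k (((Z.l k).am (x k).l).p1.π ω) ((Z.inn x k).g ω) ∧
        gx Z.sys.Q k (((Z.l k).am (x k).l).p1.π ω) ((Z.inn x k).g ω) ≤ C' := h3 ω hω
      have g3 := mul_nonneg Z.e_pos.le g2.1
      have g4 := mul_le_mul_of_nonneg_left g2.2 Z.e_pos.le
      have g5 : 0 ≤ Z.c * M := mul_nonneg Z.h0 (Nat.cast_nonneg M)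
      have g6 := g1.1
      have g7 := g1.2
      have g8 := mul_nonneg Z.e_pos.le hC'
      rw [abs_le]
      constructor <;> linarith) hm e he
  refine key.congr fun k => ?_
  congr 1
  funext ω
  rw [abs_sub_comm]

/-- the same for the exponents of one coordinate -/
theorem xz_two_of {κ κ' : Type} {A : κ → Part S} {B : κ' → Part Z.sp} {x : ∀ k, FD (S.F k) (Mon M D)}
    (hx : (gaq s.Q D).Adf A x) (hy : (gaq Z.sys.Q D).Adf B (Z.inn x)) (z : Fin M)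
    (hv : Z.c + Z.e * zx Z.sys.Q z (Z.inn x) ≤ zx s.Q z x)
    (hv' : zx s.Q z x ≤ Z.e * zx Z.sys.Q z (Z.inn x) + Z.c) (e : ℝ) (he : 0 < e) :
    Tendsto (fun k => ((Z.l k).am (x k).l).sp.pb (fun ω =>
      ¬ |xz s.Q z k ((x k).l.p.π (((Z.l k).am (x k).l).p2.π ω)) ((x k).g (((Z.l k).am (x k).l).p2.π ω)) -
        (Z.c + Z.e * xz Z.sys.Q z k (((Z.l k).am (x k).l).p1.π ω) ((Z.inn x k).g ω))| ≤ e)) UF (𝓝 0) := by
  obtain ⟨C, hC, hbd⟩ := xz_bd z hx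
  obtain ⟨C', hC', hbd'⟩ := xz_bd z hy
  have hUx := zv_UB z hx
  have hUy := zv_UB z hy
  have e1 : ∀ k, ∑ ω, ((Z.l k).am (x k).l).sp.μ ω * xz s.Q z k ((x k).l.p.π (((Z.l k).am (x k).l).p2.π ω))
      ((x k).g (((Z.l k).am (x k).l).p2.π ω)) = zv s.Q z x k := fun k =>
    sum_push ((Z.l k).am (x k).l).p2 (fun ω => xz s.Q z k ((x k).l.p.π ω) ((x k).g ω))
  have e2 : ∀ k, ∑ ω, ((Z.l k).am (x k).l).sp.μ ω * (Z.c + Z.e * xz Z.sys.Q z k (((Z.l k).am (x k).l).p1.π ω)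
      ((Z.inn x k).g ω)) = Z.c + Z.e * zv Z.sys.Q z (Z.inn x) k := by
    intro k
    have e4 : ∀ ω, ((Z.l k).am (x k).l).sp.μ ω * (Z.c + Z.e * xz Z.sys.Q z k (((Z.l k).am (x k).l).p1.π ω)
        ((Z.inn x k).g ω)) = ((Z.l k).am (x k).l).sp.μ ω * Z.c + Z.e * (((Z.l k).am (x k).l).sp.μ ω *
        xz Z.sys.Q z k (((Z.l k).am (x k).l).p1.π ω) ((Z.inn x k).g ω)) := fun ω => by ring
    rw [Finset.sum_congr rfl fun ω _ => e4 ω, Finset.sum_add_distrib, ← Finset.sum_mul, ← Finset.mul_sum,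
      Pool.Agent.Helper3.PR.sum_mu, one_mul]
    rfl
  have hm : Tendsto (fun k => ∑ ω, ((Z.l k).am (x k).l).sp.μ ω *
      ((Z.c + Z.e * xz Z.sys.Q z k (((Z.l k).am (x k).l).p1.π ω) ((Z.inn x k).g ω)) -
        xz s.Q z k ((x k).l.p.π (((Z.l k).am (x k).l).p2.π ω)) ((x k).g (((Z.l k).am (x k).l).p2.π ω)))) UF (𝓝 0) := by
    have t1 := ((ul_tendsto hUy).const_mul Z.e).const_add Z.c
    have t2 := t1.sub (ul_tendsto hUx)
    have e5 : Z.c + Z.e * ul (zv Z.sys.Q z (Z.inn x)) - ul (zv s.Q z x) = 0 := by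
      have h3 : Z.c + Z.e * ul (zv Z.sys.Q z (Z.inn x)) ≤ ul (zv s.Q z x) := hv
      have h4 : ul (zv s.Q z x) ≤ Z.e * ul (zv Z.sys.Q z (Z.inn x)) + Z.c := hv'
      linarith
    rw [e5] at t2
    refine t2.congr fun k => ?_
    rw [← e1, ← e2, ← Finset.sum_sub_distrib]
    exact Finset.sum_congr rfl fun ω _ => by ring
  have key := typ_of_mean (fun k => ((Z.l k).am (x k).l).sp)
    (fun k ω => (Z.c + Z.e * xz Z.sys.Q z k (((Z.l k).am (x k).l).p1.π ω) ((Z.inn x k).g ω)) -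
        xz s.Q z k ((x k).l.p.π (((Z.l k).am (x k).l).p2.π ω)) ((x k).g (((Z.l k).am (x k).l).p2.π ω)))
    (fun k ω => Cpd ((gaq Z.sys.Q D).cp k) (Z.ifm x k ω)) (fun _ => 0) tendsto_const_nhds
    (Z.c + Z.e * C' + C) (Z.inn_typ hx) (by
      filter_upwards [hx 1 one_pos] with k h2 ω hω hE
      have a0 := Z.inn_g k ω hE
      have a1 := xz_inn Z x z k ω hω (h2.2.1 _ (((Z.l k).am (x k).l).p2.supp ω hω)).1
      rw [a0]
      linarith) (by
      filter_upwards [hbd, hbd'] with k h2 h3 ω hω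
      have g1 := h2 _ (((Z.l k).am (x k).l).p2.supp ω hω)
      have g2 : 0 ≤ xz Z.sys.Q z k (((Z.l k).am (x k).l).p1.π ω) ((Z.inn x k).g ω) ∧
        xz Z.sys.Q z k (((Z.l k).am (x k).l).p1.π ω) ((Z.inn x k).g ω) ≤ C' := h3 ω hω
      have g3 := mul_nonneg Z.e_pos.le g2.1
      have g4 := mul_le_mul_of_nonneg_left g2.2 Z.e_pos.le
      have g5 := Z.h0
      have g6 := g1.1
      have g7 := g1.2
      have g8 := mul_nonneg Z.e_pos.le hC'
      rw [abs_le]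
      constructor <;> linarith) hm e he
  refine key.congr fun k => ?_
  congr 1
  funext ω
  rw [abs_sub_comm]

/-! ### the mean exponents, from the zoom to the system -/

/-- the gradients of the form of the system -/
theorem Jz_out (hD : 1 ≤ D) (y : ∀ k, FD (Z.sp.F k) (Mon M D)) (z : Fin M) (k : ℕ) (ω : (y k).l.T.Ω) {c : ℝ}
    (hc : Cpd c ((y k).g ω)) : Jz Z.sys.Q z k ((y k).l.p.π ω) ((y k).g ω) ≤
      2 * (S.dl Z.c k) ^ 2 * Jz s.Q z k ((Z.l k).p.π ((y k).l.p.π ω)) (Z.zfm y k ω) := by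
  have h1 := Z.Jq_zfm y k ω (Pi.single z 1)
  rw [single_dv, single_dv] at h1
  have h2 := Jq_ge_self hD (Z.sp.dl 1 k) (B := (y k).g ω) hc.2.1 (Z.sys.Q.v k ((y k).l.p.π ω)) (Pi.single z 1)
  rw [single_dv, single_dotProduct, one_mul, Pi.single_eq_same] at h2
  have h3 := sq_nonneg (S.dl Z.c k)
  show 1 + Jq (Z.sp.dl 1 k) ((y k).g ω) (Z.sys.Q.v k ((y k).l.p.π ω)) z z ≤ 2 * (S.dl Z.c k) ^ 2 *
    (1 + Jq (S.dl 1 k) (Z.zfm y k ω) (s.Q.v k ((Z.l k).p.π ((y k).l.p.π ω))) z z)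
  have h4 : 2 * (S.dl Z.c k) ^ 2 *
    (1 + Jq (S.dl 1 k) (Z.zfm y k ω) (s.Q.v k ((Z.l k).p.π ((y k).l.p.π ω))) z z) =
    2 * (S.dl Z.c k) ^ 2 + 2 * ((S.dl Z.c k) ^ 2 *
      Jq (S.dl 1 k) (Z.zfm y k ω) (s.Q.v k ((Z.l k).p.π ((y k).l.p.π ω))) z z) := by ring
  rw [h4]
  linarith

/-- comparison of the exponents of one coordinate, from the zoom to the system -/
theorem xz_out (hD : 1 ≤ D) (y : ∀ k, FD (Z.sp.F k) (Mon M D)) (z : Fin M) (k : ℕ) (ω : (y k).l.T.Ω) {c : ℝ}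
    (hc : Cpd c ((y k).g ω)) : Z.e * xz Z.sys.Q z k ((y k).l.p.π ω) ((y k).g ω) ≤
      xz s.Q z k ((Z.l k).p.π ((y k).l.p.π ω)) (Z.zfm y k ω) + (-Z.c + 1 / 2 * (1 / (S.F k).n)) := by
  have hn := (S.F k).pos
  have he := Z.e_pos
  have hd := S.dl_pos Z.c k
  have hA : PdM (Z.zfm y k ω) := one_afm_pd _ _ hc.1 fun v => hc.psd.2 v
  have h1 := Jz_out Z hD y z k ω hc
  have a1 := one_le_Jz Z.sys.Q z k ((y k).l.p.π ω) (fun v => hc.psd.2 v)
  have a2 := one_le_Jz s.Q z k ((Z.l k).p.π ((y k).l.p.π ω)) hA.nonneg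
  have a4 := Real.logb_le_logb_of_le (b := 2) (by norm_num) (by linarith) h1
  rw [Real.logb_mul (by positivity) (by linarith), Real.logb_mul (by norm_num) (by positivity),
    Real.logb_self_eq_one (by norm_num), Real.logb_pow, Z.log_dl] at a4
  unfold xz
  rw [Z.sp_n]
  have e1 : Z.e * (Real.logb 2 (Jz Z.sys.Q z k ((y k).l.p.π ω) ((y k).g ω)) /
      (2 * (Z.e * (S.F k).n))) = Real.logb 2 (Jz Z.sys.Q z k ((y k).l.p.π ω) ((y k).g ω)) /
      (2 * (S.F k).n) := by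
    field_simp
  rw [e1, div_le_iff₀ (by positivity)]
  refine a4.trans (le_of_eq ?_)
  push_cast
  field_simp
  ring

/-- the mean exponents of the form of the zoom in the system -/
theorem zx_out {B : Type} {A : B → Part Z.sp} (hD : 1 ≤ D) {y : ∀ k, FD (Z.sp.F k) (Mon M D)}
    (hy : (gaq Z.sys.Q D).Adf A y) {κ : Type} {A' : κ → Part S} (hx : (gaq s.Q D).Adf A' (Z.out y)) (z : Fin M) :
    Z.c + Z.e * zx Z.sys.Q z y ≤ zx s.Q z (Z.out y) := by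
  obtain ⟨C, hC, hbd⟩ := xz_bd z hy
  obtain ⟨C', -, hbd'⟩ := xz_bd z hx
  have hUx := zv_UB z hx
  have hUy := zv_UB z hy
  have hdiv : Tendsto (fun k => 1 / 2 * (1 / (S.F k).n)) UF (𝓝 0) := by
    have := (S.div_n_tendsto 1).const_mul (1 / 2 : ℝ)
    rwa [mul_zero] at this
  have e3 : (fun k => ∑ ω, (y k).l.T.μ ω * (Z.c + Z.e * xz Z.sys.Q z k ((y k).l.p.π ω) ((y k).g ω))) =
      fun k => Z.c + Z.e * zv Z.sys.Q z y k := by
    funext k
    have e4 : ∀ ω, (y k).l.T.μ ω * (Z.c + Z.e * xz Z.sys.Q z k ((y k).l.p.π ω) ((y k).g ω)) =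
        (y k).l.T.μ ω * Z.c + Z.e * ((y k).l.T.μ ω * xz Z.sys.Q z k ((y k).l.p.π ω) ((y k).g ω)) :=
      fun ω => by ring
    rw [Finset.sum_congr rfl fun ω _ => e4 ω, Finset.sum_add_distrib, ← Finset.sum_mul, ← Finset.mul_sum,
      Pool.Agent.Helper3.PR.sum_mu, one_mul]
    rfl
  have key := ul_avg_le (fun k => (y k).l.T) (fun k ω => xz s.Q z k ((Z.out y k).l.p.π ω) ((Z.out y k).g ω))
    (fun k ω => Z.c + Z.e * xz Z.sys.Q z k ((y k).l.p.π ω) ((y k).g ω))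
    (fun k ω => Cpd ((gaq s.Q D).cp k) (Z.zfm y k ω)) (fun k => 1 / 2 * (1 / (S.F k).n)) hdiv (Z.c + Z.e * C)
    (Z.out_typ hy) (by
      filter_upwards [hy 1 one_pos] with k h2 ω hω hE
      have a0 := Z.out_g k ω hE
      have a1 := xz_out Z hD y z k ω (h2.2.1 ω hω).1
      rw [a0]
      have a2 : (Z.out y k).l.p.π ω = (Z.l k).p.π ((y k).l.p.π ω) := rfl
      rw [a2]
      linarith) (by
      filter_upwards [hbd] with k h2 ω hω
      have := mul_le_mul_of_nonneg_left (h2 ω hω).2 Z.e_pos.le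
      linarith) (by
      filter_upwards [hbd'] with k h2 ω hω
      exact (h2 ω hω).1) (by rw [e3]; exact (UB_const _).add (hUy.const_mul Z.e)) hUx
  rw [e3] at key
  have h5 : ul (fun k => Z.c + Z.e * zv Z.sys.Q z y k) = Z.c + Z.e * zx Z.sys.Q z y := by
    rw [ul_add (UB_const _) (hUy.const_mul Z.e), ul_const_mul _ hUy, ul_const]
    rfl
  rw [h5] at key
  exact key

/-! ### optimal forms -/

/-- THE MEAN EXPONENTS of the optimal forms of the zoom and of the system -/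
theorem zx_zoom [Finite ι] (hD : 1 ≤ D) {b : ℝ} (hb : 0 ≤ b) {x : ∀ k, FD (S.F k) (Mon M D)}
    (hx : (gaq s.Q D).Optf (s.cnd (Z.c + Z.e * b)) x) (z : Fin M) :
    zx s.Q z x = Z.c + Z.e * zx Z.sys.Q z (Z.inn x) := by
  have hy := Z.inn_ad hb hx.1
  apply le_antisymm
  · have := zx_inn Z hb z hx.1
    linarith
  · exact (zx_out Z hD hy (Z.out_ad hb hy) z).trans (zx_opt hx (Z.out_ad hb hy) z)

/-- (J4) THE EXPONENTS of the optimal form in the system and in the zoom, pointwise -/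
theorem gx_two [Finite ι] (hD : 1 ≤ D) {b : ℝ} (hb : 0 ≤ b) {x : ∀ k, FD (S.F k) (Mon M D)}
    (hx : (gaq s.Q D).Optf (s.cnd (Z.c + Z.e * b)) x) (e : ℝ) (he : 0 < e) :
    Tendsto (fun k => ((Z.l k).am (x k).l).sp.pb (fun ω =>
      ¬ |gx s.Q k ((x k).l.p.π (((Z.l k).am (x k).l).p2.π ω)) ((x k).g (((Z.l k).am (x k).l).p2.π ω)) -
        (Z.c * M + Z.e * gx Z.sys.Q k (((Z.l k).am (x k).l).p1.π ω) ((Z.inn x k).g ω))| ≤ e)) UF (𝓝 0) :=
  gx_two_of Z hx.1 (Z.inn_ad hb hx.1) (Z.vol_opt hD hb (Z.opt_inn hb hx) hx) e he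

/-- the same for one coordinate -/
theorem xz_two [Finite ι] (hD : 1 ≤ D) {b : ℝ} (hb : 0 ≤ b) {x : ∀ k, FD (S.F k) (Mon M D)}
    (hx : (gaq s.Q D).Optf (s.cnd (Z.c + Z.e * b)) x) (z : Fin M) (e : ℝ) (he : 0 < e) :
    Tendsto (fun k => ((Z.l k).am (x k).l).sp.pb (fun ω =>
      ¬ |xz s.Q z k ((x k).l.p.π (((Z.l k).am (x k).l).p2.π ω)) ((x k).g (((Z.l k).am (x k).l).p2.π ω)) -
        (Z.c + Z.e * xz Z.sys.Q z k (((Z.l k).am (x k).l).p1.π ω) ((Z.inn x k).g ω))| ≤ e)) UF (𝓝 0) :=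
  xz_two_of Z hx.1 (Z.inn_ad hb hx.1) z (zx_zoom Z hD hb hx z).ge (zx_inn Z hb z hx.1) e he

/-- over the join of the two labels -/
theorem gx_two_join [Finite ι] (hD : 1 ≤ D) {b : ℝ} (hb : 0 ≤ b) {x : ∀ k, FD (S.F k) (Mon M D)}
    (hx : (gaq s.Q D).Optf (s.cnd (Z.c + Z.e * b)) x) (e : ℝ) (he : 0 < e) :
    Typ (S := (Z.l.join (lb x)).sp) (fun k (ω : ((Z.l k).join (x k).l).T.Ω) =>
      |gx s.Q k ((x k).l.p.π (((Z.l k).am (x k).l).p2.π ω)) ((x k).g (((Z.l k).am (x k).l).p2.π ω)) -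
        (Z.c * M + Z.e * gx Z.sys.Q k (((Z.l k).am (x k).l).p1.π ω) ((Z.inn x k).g ω))| ≤ e) :=
  gx_two Z hD hb hx e he

/-! ### optimal K-forms -/

variable {R : ∀ k, Setoid (S.F k).Ω}

theorem zx_zoomK [Finite ι] (hl : (KC R).ev Z.l) (hD : 1 ≤ D) {b : ℝ} (hb : 0 ≤ b)
    {x : ∀ k, FD (S.F k) (Mon M D)} (hx : (gaq s.Q D).OptfK (KC R) (s.cnd (Z.c + Z.e * b)) x) (z : Fin M) :
    zx s.Q z x = Z.c + Z.e * zx Z.sys.Q z (Z.inn x) := by
  have hy := adfK_inn Z hb hx.1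
  apply le_antisymm
  · have := zx_inn Z hb z hx.1.1
    linarith
  · exact (zx_out Z hD hy.1 (Z.out_ad hb hy.1) z).trans (zxK_le hx (adfK_out Z hl hb hy) z)

theorem gx_twoK [Finite ι] (hl : (KC R).ev Z.l) (hD : 1 ≤ D) {b : ℝ} (hb : 0 ≤ b)
    {x : ∀ k, FD (S.F k) (Mon M D)} (hx : (gaq s.Q D).OptfK (KC R) (s.cnd (Z.c + Z.e * b)) x) (e : ℝ) (he : 0 < e) :
    Tendsto (fun k => ((Z.l k).am (x k).l).sp.pb (fun ω =>
      ¬ |gx s.Q k ((x k).l.p.π (((Z.l k).am (x k).l).p2.π ω)) ((x k).g (((Z.l k).am (x k).l).p2.π ω)) -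
        (Z.c * M + Z.e * gx Z.sys.Q k (((Z.l k).am (x k).l).p1.π ω) ((Z.inn x k).g ω))| ≤ e)) UF (𝓝 0) :=
  gx_two_of Z hx.1.1 (Z.inn_ad hb hx.1.1) (volK_zoom Z hl hD hb (optK_inn Z hl hb hx) hx) e he

theorem xz_twoK [Finite ι] (hl : (KC R).ev Z.l) (hD : 1 ≤ D) {b : ℝ} (hb : 0 ≤ b)
    {x : ∀ k, FD (S.F k) (Mon M D)} (hx : (gaq s.Q D).OptfK (KC R) (s.cnd (Z.c + Z.e * b)) x) (z : Fin M) (e : ℝ)
    (he : 0 < e) :
    Tendsto (fun k => ((Z.l k).am (x k).l).sp.pb (fun ω =>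
      ¬ |xz s.Q z k ((x k).l.p.π (((Z.l k).am (x k).l).p2.π ω)) ((x k).g (((Z.l k).am (x k).l).p2.π ω)) -
        (Z.c + Z.e * xz Z.sys.Q z k (((Z.l k).am (x k).l).p1.π ω) ((Z.inn x k).g ω))| ≤ e)) UF (𝓝 0) :=
  xz_two_of Z hx.1.1 (Z.inn_ad hb hx.1.1) z (zx_zoomK Z hl hD hb hx z).ge (zx_inn Z hb z hx.1.1) e he

end

end Pool.Agent.Helper30.ZN
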