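import Pool.Agent.Helper30.ZN.Rat

/-! ZNUM: the numbers `h(P_a, z_b | kappa_c)` of a system from lower bounds, informations of labels and boxes. -/

set_option autoImplicit false

namespace Pool.Agent.Helper30.ZN

open Finset Filter Topology Pool.Agent.Helper69.RK Pool.Agent.Helper31.EC Pool.Agent.Helper31.EC.Sp
open Pool.Agent.Helper40.EL Pool.Agent.Helper89.LX Pool.Agent.Helper3.LF Pool.Agent.Helper84.MT
open Pool.Agent.Helper36.AM (Frm Gz cel2)
open Pool.Agent.Helper63.FRT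

noncomputable section

/-- the numbers of a homogeneous class -/
def NV {M : ℕ} (w : Fin (M + 1) → ℝ) (ρ c a b : ℝ) : ℝ :=
  ∑ j : Fin M, (a - w j.castSucc * c) + (1 - ρ) * (b - w (Fin.last M) * c)

variable {S : Sp} {M : ℕ} {E : ℕ → ℕ} {ι : Type}

/-- entropies over a label without leak -/
theorem H_le_info {y : Lab S} {A : S.L} (hy : Nul S (fun k => (y k).leak (rp A k))) (X : S.L) :
    H X ≤ H (up1 y X) + (H A - H (up1 y A)) := by
  have hy2 : Nul S (fun k => (y k).leak (rp (A ⊔ X) k)) := by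
    have hAy : PLe (rp A) (rp (A ⊔ X)) := rp_mono le_sup_left
    exact (hy.add hAy).of_le (Eventually.of_forall fun _ => FLab.leak_nonneg _ _)
      (Eventually.of_forall fun k => (y k).leak_le_leak (rp (A ⊔ X) k) (rp A k))
  have h1 : y.info = H A - 1 * H (up1 y A) := Lab.info_eq_of_leak (c := 1) (hc := one_pos) hy
  have h2 : y.info = H (A ⊔ X) - 1 * H (up1 y (A ⊔ X)) := Lab.info_eq_of_leak (c := 1) (hc := one_pos) hy2
  have h3 := h_up1_le y A X
  have e1 : h A X = H (A ⊔ X) - H X := rfl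
  have e2 : h (up1 y A) (up1 y X) = H (up1 y A ⊔ up1 y X) - H (up1 y X) := rfl
  rw [e1, e2, ← up1_sup] at h3
  linarith

/-- DATA: lower bounds for the numbers, informations of labels, boxes -/
structure TD (t : MSys S (M + 1) E ι) (w : Fin (M + 1) → ℝ) (ρ : ℝ) : Prop where
  hw : ∀ j, 1 ≤ w j
  mono : ∀ j, w j ≤ w (Fin.last M)
  rho1 : ρ ≤ 1
  rho0 : 0 ≤ ρ
  low : ∀ c' b a, 0 ≤ c' → w (Fin.last M) * c' < 1 → w (Fin.last M) * c' ≤ b → b ≤ a → a ≤ 1 → ∀ y : Lab S,
    t.DMc c' y → NV w ρ c' a b ≤ H (up1 y (cel2L t.Q (Fin.last M) a b))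
  info : ∀ c', 0 ≤ c' → w (Fin.last M) * c' < 1 → ∀ y : Lab S, t.DMc c' y → ∀ X : S.L,
    H X ≤ H (up1 y X) + (∑ j : Fin M, w j.castSucc * c' + (1 - ρ) * (w (Fin.last M) * c'))
  box : ∀ c', 0 < c' → w (Fin.last M) * c' < 1 → ∃ (y : Lab S) (_ : Frm t.Q y (fun j => w j * c')), t.IsKap c' y

namespace TD

variable [Countable ι] {t : MSys S (M + 1) E ι} {w : Fin (M + 1) → ℝ} {ρ : ℝ} (Z : TD t w ρ)

include Z

omit [Countable ι] in
theorem wz : 1 ≤ w (Fin.last M) := Z.hw _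

omit [Countable ι] in
/-- over the boxes -/
theorem box_le {c' b a : ℝ} (h0 : 0 < c') (hb : w (Fin.last M) * c' ≤ b) (hba : b ≤ a) (ha : a ≤ 1)
    {y : Lab S} (f' : Frm t.Q y (fun j => w j * c')) :
    H (up1 y (cel2L t.Q (Fin.last M) a b)) ≤ ∑ j : Fin M, (a - w j.castSucc * c') + (b - w (Fin.last M) * c') := by
  have h1 := H_frm_le f' (fun j => mul_pos (zero_lt_one.trans_le (Z.hw j)) h0) (z := Fin.last M)
    (fun j => Fin.le_last j) hba ha (fun j => ((mul_le_mul_of_nonneg_right (Z.mono j) h0.le).trans hb).trans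
      (le_lev hba j))
  refine h1.trans (le_of_eq ?_)
  rw [Fin.sum_univ_castSucc, lev_self]
  congr 1
  refine Finset.sum_congr rfl fun j _ => ?_
  rw [lev_ne _ _ (Fin.castSucc_lt_last j).ne]

/-- UPPER BOUND over the base -/
theorem base {b a : ℝ} (hb : 0 ≤ b) (hba : b ≤ a) (ha : a ≤ 1) :
    H (cel2L t.Q (Fin.last M) a b) ≤ M * a + (1 - ρ) * b := by
  have wz := Z.wz
  have r0 := Z.rho0
  have r1 := Z.rho1
  have key : ∀ δ : ℝ, 0 < δ → δ < 1 → H (cel2L t.Q (Fin.last M) a b) ≤ M * a + (1 - ρ) * b + (M + 2) * δ := by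
    intro δ hδ hδ1
    obtain ⟨b1, hb1⟩ : ∃ b1, b1 = max b δ := ⟨_, rfl⟩
    obtain ⟨a1, ha1⟩ : ∃ a1, a1 = max a δ := ⟨_, rfl⟩
    have b1p : 0 < b1 := by rw [hb1]; exact lt_max_of_lt_right hδ
    have b1b : b ≤ b1 := by rw [hb1]; exact le_max_left _ _
    have b1u : b1 ≤ b + δ := by rw [hb1]; exact max_le (by linarith) (by linarith)
    have b11 : b1 ≤ 1 := by rw [hb1]; exact max_le (hba.trans ha) hδ1.le
    have a1a : a ≤ a1 := by rw [ha1]; exact le_max_left _ _
    have a1u : a1 ≤ a + δ := by rw [ha1]; exact max_le (by linarith) (by linarith)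
    have a11 : a1 ≤ 1 := by rw [ha1]; exact max_le ha hδ1.le
    have hab : b1 ≤ a1 := by rw [ha1, hb1]; exact max_le_max hba le_rfl
    obtain ⟨c', hc'⟩ : ∃ c', c' = (1 - δ) * b1 / w (Fin.last M) := ⟨_, rfl⟩
    have wp : 0 < w (Fin.last M) := zero_lt_one.trans_le wz
    have c0 : 0 < c' := by
      rw [hc']
      have : 0 < 1 - δ := by linarith
      positivity
    have cw : w (Fin.last M) * c' = (1 - δ) * b1 := by
      rw [hc']
      field_simp
    have c1 : w (Fin.last M) * c' < 1 := by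
      rw [cw]
      nlinarith
    have c2 : w (Fin.last M) * c' ≤ b1 := by
      rw [cw]
      nlinarith
    obtain ⟨y, f', hy⟩ := Z.box c' c0 c1
    have h1 := Z.box_le c0 c2 hab a11 f'
    have h2 := Z.info c' c0.le c1 y hy.1 (cel2L t.Q (Fin.last M) a1 b1)
    have h3 : H (cel2L t.Q (Fin.last M) a b) ≤ H (cel2L t.Q (Fin.last M) a1 b1) := H_mono (cel2L_mono _ _ a1a b1b)
    have e1 : ∑ j : Fin M, (a1 - w j.castSucc * c') + ∑ j : Fin M, w j.castSucc * c' = M * a1 := by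
      rw [← Finset.sum_add_distrib]
      have e2 : ∀ j : Fin M, a1 - w j.castSucc * c' + w j.castSucc * c' = a1 := fun j => by ring
      rw [Finset.sum_congr rfl fun j _ => e2 j, Finset.sum_const, Finset.card_univ, Fintype.card_fin, nsmul_eq_mul]
    have hM : (0 : ℝ) ≤ M := Nat.cast_nonneg M
    have e3 : (M : ℝ) * a1 ≤ M * a + M * δ := by nlinarith
    rw [cw] at h1 h2
    have e4 : (b1 - (1 - δ) * b1) + (1 - ρ) * ((1 - δ) * b1) ≤ (1 - ρ) * b + 2 * δ := by
      have q1 : (b1 - (1 - δ) * b1) + (1 - ρ) * ((1 - δ) * b1) = (1 - ρ) * b1 + ρ * (δ * b1) := by ring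
      rw [q1]
      have q2 : (1 - ρ) * b1 ≤ (1 - ρ) * (b + δ) := mul_le_mul_of_nonneg_left b1u (by linarith)
      have q3 : ρ * (δ * b1) ≤ 1 * (δ * 1) := mul_le_mul r1 (mul_le_mul_of_nonneg_left b11 hδ.le) (by positivity)
        zero_le_one
      nlinarith
    linarith
  refine le_of_forall_pos_le_add fun ε hε => ?_
  have hM : (0 : ℝ) ≤ M := Nat.cast_nonneg M
  obtain ⟨δ, hδ⟩ : ∃ δ, δ = min (1 / 2) (ε / (M + 2)) := ⟨_, rfl⟩
  have h1 : 0 < δ := by
    rw [hδ]
    exact lt_min (by norm_num) (by positivity)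
  have h2 : δ < 1 := by
    rw [hδ]
    exact (min_le_left _ _).trans_lt (by norm_num)
  have h3 : (M + 2) * δ ≤ ε := by
    have h4 : δ ≤ ε / (M + 2) := by
      rw [hδ]
      exact min_le_right _ _
    rw [le_div_iff₀ (by positivity)] at h4
    linarith
  have := key δ h1 h2
  linarith

/-- UPPER BOUND, inner windows -/
theorem upp_lt {c' b a : ℝ} (h0 : 0 < c') (hc1 : w (Fin.last M) * c' < 1) (hb : w (Fin.last M) * c' ≤ b) (hba : b ≤ a)
    (ha : a ≤ 1) {y : Lab S} (hy : t.IsKap c' y) :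
    H (up1 y (cel2L t.Q (Fin.last M) a b)) ≤ NV w ρ c' a b := by
  obtain ⟨y', f', hy'⟩ := Z.box c' h0 hc1
  rw [hy.H_eq hy']
  obtain ⟨b0, hb0⟩ : ∃ b0, b0 = w (Fin.last M) * c' := ⟨_, rfl⟩
  have wp : 0 < w (Fin.last M) := zero_lt_one.trans_le Z.wz
  have b0p : 0 ≤ b0 := by
    rw [hb0]
    positivity
  obtain ⟨X, hX⟩ : ∃ X, X = cel2L t.Q (Fin.last M) a b := ⟨_, rfl⟩
  obtain ⟨X0, hX0⟩ : ∃ X, X = cel2L t.Q (Fin.last M) a b0 := ⟨_, rfl⟩
  have hle : X0 ≤ X := by
    rw [hX, hX0]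
    exact cel2L_mono _ _ le_rfl (hb0 ▸ hb)
  have h1 := h_up1_le y' X X0
  have e1 : h (up1 y' X) (up1 y' X0) = H (up1 y' X) - H (up1 y' X0) := by
    show H (up1 y' X ⊔ up1 y' X0) - H (up1 y' X0) = _
    rw [sup_eq_left.mpr (up1_mono y' hle)]
  have e2 : h X X0 = H X - H X0 := by
    show H (X ⊔ X0) - H X0 = _
    rw [sup_eq_left.mpr hle]
  rw [e1, e2] at h1
  have h2 : H X ≤ M * a + (1 - ρ) * b := by
    rw [hX]
    exact Z.base (b0p.trans (hb0 ▸ hb)) hba ha
  have h3 : NV w ρ 0 a b0 ≤ H X0 := by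
    rw [hX0]
    have h4 : t.DMc 0 (fun k => FLab.triv (S.F k)) := Lab.DMf_triv _
    exact (Z.low 0 b0 a le_rfl (by rw [mul_zero]; exact one_pos) (by rw [mul_zero]; exact b0p) ((hb0 ▸ hb).trans hba) ha _ h4).trans (H_up1_le _ _)
  have e3 : NV w ρ 0 a b0 = M * a + (1 - ρ) * b0 := by
    unfold NV
    rw [mul_zero, sub_zero]
    congr 1
    have e4 : ∀ j : Fin M, a - w j.castSucc * 0 = a := fun j => by ring
    rw [Finset.sum_congr rfl fun j _ => e4 j, Finset.sum_const, Finset.card_univ, Fintype.card_fin, nsmul_eq_mul]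
  have h5 : H (up1 y' X0) ≤ ∑ j : Fin M, (a - w j.castSucc * c') := by
    have h6 := Z.box_le h0 (b := b0) (a := a) hb0.ge ((hb0 ▸ hb).trans hba) ha f'
    rw [← hb0, sub_self, add_zero, ← hX0] at h6
    exact h6
  rw [← hX]
  unfold NV
  rw [← hb0, mul_sub]
  linarith

/-- UPPER BOUND -/
theorem upp {c' b a : ℝ} (h0 : 0 ≤ c') (hb : w (Fin.last M) * c' ≤ b) (hba : b ≤ a)
    (ha : a ≤ 1) {y : Lab S} (hy : t.IsKap c' y) :
    H (up1 y (cel2L t.Q (Fin.last M) a b)) ≤ NV w ρ c' a b := by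
  have wp : 0 < w (Fin.last M) := zero_lt_one.trans_le Z.wz
  have r0 := Z.rho0
  have r1 := Z.rho1
  rcases h0.eq_or_lt with h | h
  · rw [← h] at hb ⊢
    rw [mul_zero] at hb
    refine (H_up1_le _ _).trans ((Z.base hb hba ha).trans (le_of_eq ?_))
    unfold NV
    rw [mul_zero, sub_zero]
    congr 1
    have e4 : ∀ j : Fin M, a - w j.castSucc * 0 = a := fun j => by ring
    rw [Finset.sum_congr rfl fun j _ => e4 j, Finset.sum_const, Finset.card_univ, Fintype.card_fin, nsmul_eq_mul]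
  · rcases lt_or_ge (w (Fin.last M) * c') 1 with h1 | h1
    · exact Z.upp_lt h h1 hb hba ha hy
    · have hb1 : b = 1 := le_antisymm (hba.trans ha) (h1.trans hb)
      have ha1 : a = 1 := le_antisymm ha (hb1 ▸ hba)
      have hc1 : w (Fin.last M) * c' = 1 := le_antisymm (hb1 ▸ hb) h1
      rw [hb1, ha1]
      obtain ⟨C, hC⟩ : ∃ C, C = ∑ j : Fin M, w j.castSucc * c' + (1 - ρ) := ⟨_, rfl⟩
      have hC0 : 0 ≤ C := by
        rw [hC]
        have h2 : 0 ≤ ∑ j : Fin M, w j.castSucc * c' := Finset.sum_nonneg fun j _ =>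
          mul_nonneg (zero_le_one.trans (Z.hw _)) h.le
        linarith
      refine le_of_forall_pos_le_add fun ε hε => ?_
      obtain ⟨δ, hδ⟩ : ∃ δ, δ = min (1 / 2) (ε / (C + 1)) := ⟨_, rfl⟩
      have d1 : 0 < δ := by
        rw [hδ]
        exact lt_min (by norm_num) (by positivity)
      have d2 : δ < 1 := by
        rw [hδ]
        exact (min_le_left _ _).trans_lt (by norm_num)
      have d3 : (C + 1) * δ ≤ ε := by
        have h4 : δ ≤ ε / (C + 1) := by
          rw [hδ]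
          exact min_le_right _ _
        rw [le_div_iff₀ (by positivity)] at h4
        linarith
      have c1 : 0 < (1 - δ) * c' := by
        have : 0 < 1 - δ := by linarith
        positivity
      have c2 : w (Fin.last M) * ((1 - δ) * c') < 1 := by
        have e5 : w (Fin.last M) * ((1 - δ) * c') = (1 - δ) * (w (Fin.last M) * c') := by ring
        rw [e5, hc1]
        linarith
      have h3 := Z.upp_lt c1 c2 c2.le le_rfl le_rfl (t.kap_isKap ((1 - δ) * c'))
      have h4 : H (up1 y (cel2L t.Q (Fin.last M) 1 1)) ≤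
          H (up1 (t.kap ((1 - δ) * c')) (cel2L t.Q (Fin.last M) 1 1)) :=
        MSys.IsKap.H_le hy (MSys.DMc.mono (by nlinarith) (t.kap_isKap ((1 - δ) * c')).1) _
      have e6 : NV w ρ ((1 - δ) * c') 1 1 = NV w ρ c' 1 1 + δ * C := by
        rw [hC]
        unfold NV
        have e7 : ∑ j : Fin M, (1 - w j.castSucc * ((1 - δ) * c')) =
            ∑ j : Fin M, (1 - w j.castSucc * c') + δ * ∑ j : Fin M, w j.castSucc * c' := by
          rw [Finset.mul_sum, ← Finset.sum_add_distrib]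
          exact Finset.sum_congr rfl fun j _ => by ring
        have e8 : w (Fin.last M) * ((1 - δ) * c') = (1 - δ) * (w (Fin.last M) * c') := by ring
        rw [e7, e8, hc1]
        ring
      have h5 : δ * C ≤ ε := by nlinarith
      linarith

/-- THE NUMBERS -/
theorem num_eq {c' b a : ℝ} (h0 : 0 ≤ c') (h1 : w (Fin.last M) * c' < 1) (hb : w (Fin.last M) * c' ≤ b) (hba : b ≤ a)
    (ha : a ≤ 1) {y : Lab S} (hy : t.IsKap c' y) :
    H (up1 y (cel2L t.Q (Fin.last M) a b)) = NV w ρ c' a b :=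
  le_antisymm (Z.upp h0 hb hba ha hy) (Z.low c' b a h0 h1 hb hba ha y hy.1)

end TD

end

end Pool.Agent.Helper30.ZN
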