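import Pool.Agent.Helper30.ZN.Num
import Pool.Agent.Helper7.GZ.Ab

/-! ZNUM: the numbers `h(P_a, z_b | kappa_c)` of a zoom, from the numbers of the system and the boxes of the zoom. -/

set_option autoImplicit false

namespace Pool.Agent.Helper30.ZN

open Finset Filter Topology Pool.Agent.Helper69.RK Pool.Agent.Helper31.EC Pool.Agent.Helper31.EC.Sp
open Pool.Agent.Helper40.EL Pool.Agent.Helper89.LX Pool.Agent.Helper3.LF Pool.Agent.Helper84.MT
open Pool.Agent.Helper36.AM (Frm Gz cel2)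
open Pool.Agent.Helper63.FRT

noncomputable section

variable {S : Sp} {M : ℕ} {E E' : ℕ → ℕ} {ι : Type}

/-- DATA: a zoom `t` of `s` over the maximal label `l` of the window `c`, in the coordinates of a frame, unit `e`;
the numbers of `s`, the boxes of `t` -/
structure ZD (s : MSys S (M + 1) E ι) (w : Fin (M + 1) → ℝ) (ρ : ℝ) (l : Lab S) (c e : ℝ) (he : 0 < e)
    (t : MSys (l.ovr e he) (M + 1) E' ι) where
  f : Frm s.Q l (fun j => w j * c)
  hc : 0 < c
  h1 : w (Fin.last M) * c + e ≤ 1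
  hw : ∀ j, 1 ≤ w j
  mono : ∀ j, w j ≤ w (Fin.last M)
  rho1 : ρ ≤ 1
  rho0 : 0 ≤ ρ
  kap : s.IsKap c l
  pt : ∃ K : ℕ → ℝ, S.Sub K ∧ ∀ᶠ k in UF, ∀ ω : (l.sp.F k).Ω, (l.sp.F k).μ ω ≠ 0 → ∀ j,
    |t.Q.v k ω j - f.X.v k ω j| ≤ K k * S.dl e k
  hpcd : PLe (pcd t.Q) (l.up e he (pcd s.Q))
  lab : ∀ b, 0 ≤ b → b ≤ 1 → ∀ y : Lab (l.ovr e he), t.DMc b y → s.DMc (c + e * b) (l.comp e he y)
  num : ∀ c' b, 0 ≤ c' → w (Fin.last M) * c' < 1 → w (Fin.last M) * c' ≤ b → b ≤ 1 → ∀ L : Lab S, s.IsKap c' L →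
    H (up1 L (cel2L s.Q (Fin.last M) 1 b)) = NV w ρ c' 1 b
  box : ∀ c', 0 < c' → w (Fin.last M) * c' < 1 → ∃ (y : Lab (l.ovr e he)) (_ : Frm t.Q y (fun j => w j * c')),
    t.IsKap c' y

namespace ZD

variable [Countable ι] {s : MSys S (M + 1) E ι} {w : Fin (M + 1) → ℝ} {ρ : ℝ} {l : Lab S} {c e : ℝ} {he : 0 < e}
  {t : MSys (l.ovr e he) (M + 1) E' ι} (Z : ZD s w ρ l c e he t)

include Z

theorem num_le {c' b : ℝ} (h0 : 0 ≤ c') (hs : w (Fin.last M) * c' < 1) (h1 : w (Fin.last M) * c' ≤ b) (h2 : b ≤ 1)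
    {L : Lab S} (hL : s.DMc c' L) : NV w ρ c' 1 b ≤ H (up1 L (cel2L s.Q (Fin.last M) 1 b)) := by
  rw [← Z.num c' b h0 hs h1 h2 _ (s.kap_isKap c')]
  exact MSys.IsKap.H_le (s.kap_isKap c') hL _

omit [Countable ι] in
theorem wz : 1 ≤ w (Fin.last M) := Z.hw _

omit [Countable ι] in
/-- LOWER BOUND, from the lower bound for the composed label -/
theorem low_aux {c' b a : ℝ} (hba : b ≤ a) (ha : a ≤ 1) {y : Lab (l.ovr e he)}
    (h2 : NV w ρ (c + e * c') 1 (w (Fin.last M) * c + e * b) ≤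
      H (up1 (l.comp e he y) (cel2L s.Q (Fin.last M) 1 (w (Fin.last M) * c + e * b)))) :
    NV w ρ c' a b ≤ H (up1 y (cel2L t.Q (Fin.last M) a b)) := by
  have wz := Z.wz
  have hc := Z.hc
  have z1 := Z.h1
  rw [l.H_comp e he y] at h2
  have h3 := h_zoom_le Z.f (fun j => mul_pos (zero_lt_one.trans_le (Z.hw j)) hc) he t.Q Z.pt
    (z := Fin.last M) (fun j => Fin.le_last j) (fun j => by
      have := mul_le_mul_of_nonneg_right (Z.mono j) hc.le
      linarith) hba ha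
  obtain ⟨A, hA⟩ : ∃ A, A = l.upL e he (cel2L s.Q (Fin.last M) 1 (w (Fin.last M) * c + e * b)) := ⟨_, rfl⟩
  rw [← hA] at h2 h3
  obtain ⟨X, hX⟩ : ∃ X, X = cel2L t.Q (Fin.last M) a b := ⟨_, rfl⟩
  rw [← hX] at h3 ⊢
  have h4 := h_up1_le y A X
  have e1 : h (up1 y A) (up1 y X) = H (up1 y A ⊔ up1 y X) - H (up1 y X) := rfl
  have h5 : H (up1 y A) ≤ H (up1 y A ⊔ up1 y X) := H_mono le_sup_left
  -- the sum
  have e2 : ∑ j, (lev (Fin.last M) (1 / e) ((w (Fin.last M) * c + e * b) / e) j -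
      (w j * c + e * lev (Fin.last M) a b j) / e) = (∑ j : Fin M, (1 - w j.castSucc * c - e * a)) / e := by
    rw [Fin.sum_univ_castSucc, lev_self, lev_self, sub_self, add_zero, Finset.sum_div]
    refine Finset.sum_congr rfl fun j _ => ?_
    rw [lev_ne _ _ (Fin.castSucc_lt_last j).ne, lev_ne _ _ (Fin.castSucc_lt_last j).ne, ← sub_div]
    congr 1
    ring
  have h6 : h A X ≤ (∑ j : Fin M, (1 - w j.castSucc * c - e * a)) / e := h3.trans (le_of_eq e2)
  have h7 : e * H (up1 y A) ≤ e * (H (up1 y X) + (∑ j : Fin M, (1 - w j.castSucc * c - e * a)) / e) :=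
    mul_le_mul_of_nonneg_left (by linarith) he.le
  rw [mul_add, mul_div_cancel₀ _ he.ne'] at h7
  have h8 : e * NV w ρ c' a b ≤ e * H (up1 y X) := by
    have e3 : NV w ρ (c + e * c') 1 (w (Fin.last M) * c + e * b) - ∑ j : Fin M, (1 - w j.castSucc * c - e * a) =
        e * NV w ρ c' a b := by
      unfold NV
      have e4 : ∑ j : Fin M, (1 - w j.castSucc * (c + e * c')) - ∑ j : Fin M, (1 - w j.castSucc * c - e * a) =
          e * ∑ j : Fin M, (a - w j.castSucc * c') := by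
        rw [← Finset.sum_sub_distrib, Finset.mul_sum]
        exact Finset.sum_congr rfl fun j _ => by ring
      rw [mul_add e, ← e4]
      ring
    linarith
  exact le_of_mul_le_mul_left h8 he

/-- LOWER BOUND -/
theorem low {c' b a : ℝ} (h0 : 0 ≤ c') (hs : w (Fin.last M) * c' < 1) (hb : w (Fin.last M) * c' ≤ b) (hba : b ≤ a)
    (ha : a ≤ 1) {y : Lab (l.ovr e he)} (hy : t.DMc c' y) :
    NV w ρ c' a b ≤ H (up1 y (cel2L t.Q (Fin.last M) a b)) := by
  have wz := Z.wz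
  have hc := Z.hc
  have z1 := Z.h1
  have hc1 : c' ≤ 1 := by nlinarith
  have hL := Z.lab c' h0 hc1 y hy
  have q1 : e * (w (Fin.last M) * c') ≤ e * b := mul_le_mul_of_nonneg_left hb he.le
  have q2 : e * b ≤ e * 1 := mul_le_mul_of_nonneg_left (hba.trans ha) he.le
  have q3 : e * (w (Fin.last M) * c') < e * 1 := mul_lt_mul_of_pos_left hs he
  exact Z.low_aux hba ha (Z.num_le (c' := c + e * c') (b := w (Fin.last M) * c + e * b) (by positivity) (by nlinarith)
    (by nlinarith) (by linarith) hL)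

/-- the information of a label of the zoom -/
theorem info_le {c' : ℝ} (h0 : 0 ≤ c') (hc1 : w (Fin.last M) * c' < 1) {y : Lab (l.ovr e he)} (hy : t.DMc c' y) (X : (l.ovr e he).L) :
    H X ≤ H (up1 y X) + (∑ j : Fin M, w j.castSucc * c' + (1 - ρ) * (w (Fin.last M) * c')) := by
  have wz := Z.wz
  have hc := Z.hc
  have z1 := Z.h1
  have hc1' : c' ≤ 1 := by nlinarith
  have hL := Z.lab c' h0 hc1' y hy
  obtain ⟨A, hA⟩ : ∃ A, A = l.upL e he (cel2L s.Q (Fin.last M) 1 1) := ⟨_, rfl⟩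
  have hleak : Nul (l.ovr e he) (fun k => (y k).leak (rp A k)) := by
    have g1 := hy none
    have g2 : PLe (pcd t.Q) (rp A) := by
      refine Z.hpcd.trans ?_
      have g3 : PLe (l.up e he (pcd s.Q)) (l.up e he (rp (s.Q.dg 1))) := Lab.PLe_up (l := l) (c := e) (hc := he) (pcd_rp s.Q).2
      refine g3.trans ?_
      rw [hA, cel2L_self]
      exact (l.rp_upL e he (s.Q.dg 1)).2
    exact (Nul.add g1 g2).of_le (Eventually.of_forall fun _ => FLab.leak_nonneg _ _)
      (Eventually.of_forall fun k => (y k).leak_le_leak (rp A k) (pcd t.Q k))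
  have h1 := H_le_info hleak X
  have q3 : e * (w (Fin.last M) * c') < e * 1 := mul_lt_mul_of_pos_left hc1 he
  have h2 := Z.num_le (c' := c + e * c') (b := 1) (by positivity) (by nlinarith) (by nlinarith) le_rfl hL
  rw [l.H_comp e he y, ← hA] at h2
  have h3 := Z.num c 1 hc.le (by linarith) (by linarith) le_rfl l Z.kap
  have h4 : H (up1 l (cel2L s.Q (Fin.last M) 1 1)) = e * H A := by
    rw [hA, l.H_upL e he, l.H_upL 1 one_pos, div_one, mul_div_cancel₀ _ he.ne']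
  rw [h4] at h3
  have h5 : e * (H A - H (up1 y A)) ≤ e * (∑ j : Fin M, w j.castSucc * c' + (1 - ρ) * (w (Fin.last M) * c')) := by
    have e3 : NV w ρ c 1 1 - NV w ρ (c + e * c') 1 1 =
        e * (∑ j : Fin M, w j.castSucc * c' + (1 - ρ) * (w (Fin.last M) * c')) := by
      unfold NV
      have e4 : ∑ j : Fin M, (1 - w j.castSucc * c) - ∑ j : Fin M, (1 - w j.castSucc * (c + e * c')) =
          e * ∑ j : Fin M, w j.castSucc * c' := by
        rw [← Finset.sum_sub_distrib, Finset.mul_sum]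
        exact Finset.sum_congr rfl fun j _ => by ring
      rw [mul_add e, ← e4]
      ring
    rw [← e3, mul_sub]
    linarith
  have h6 := le_of_mul_le_mul_left h5 he
  linarith

/-- the data of the zoom -/
theorem td : TD t w ρ where
  hw := Z.hw
  mono := Z.mono
  rho1 := Z.rho1
  rho0 := Z.rho0
  low := fun _ _ _ h0 hs hb hba ha _ hy => Z.low h0 hs hb hba ha hy
  info := fun _ h0 h1 _ hy X => Z.info_le h0 h1 hy X
  box := Z.box

end ZD

end

end Pool.Agent.Helper30.ZN
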